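import Pool.Agent.Y951.MW.Many2
import Pool.Agent.Helper112.Arith

/-! # polynomial sums to squarefree moduli -/

set_option autoImplicit false

namespace Pool.Agent.Helper68K9.MWQ

open Finset Real Polynomial
open Pool.Agent.Y933.KD
open Pool.Agent.Y951.MW

/-- degree at most `k`, and nonlinear modulo every prime divisor of `d` that exceeds `k` -/
def NL (k d : ℕ) (P : ℤ[X]) : Prop :=
  P.natDegree ≤ k ∧ ∀ p : ℕ, p.Prime → p ∣ d → k < p → ∃ i : ℕ, 2 ≤ i ∧ ¬ (p : ℤ) ∣ P.coeff i

theorem prime_sum {k p : ℕ} (hk : 2 ≤ k) [Fact p.Prime] (P : ℤ[X]) (hP : NL k p P) (a : ZMod p) :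
    ‖∑ r : ZMod p, (ZMod.stdAddChar ((P.map (Int.castRingHom (ZMod p))).eval r) : ℂ) *
      (ZMod.stdAddChar (a * r) : ℂ)‖ ≤ 2 ^ k * √(p : ℝ) := by
  have hp : p.Prime := Fact.out
  have hk2 : (k : ℝ) ≤ 2 ^ k := by exact_mod_cast Nat.lt_two_pow_self.le
  have hs0 : 0 ≤ √(p : ℝ) := Real.sqrt_nonneg _
  rcases le_or_gt p k with h | h
  · have h1 : ‖∑ r : ZMod p, (ZMod.stdAddChar ((P.map (Int.castRingHom (ZMod p))).eval r) : ℂ) *
        (ZMod.stdAddChar (a * r) : ℂ)‖ ≤ p := by
      refine (norm_sum_le _ _).trans ?_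
      have h2 : ∀ r ∈ (univ : Finset (ZMod p)), ‖(ZMod.stdAddChar ((P.map (Int.castRingHom (ZMod p))).eval r) : ℂ) *
          (ZMod.stdAddChar (a * r) : ℂ)‖ ≤ 1 := by
        intro r _
        rw [norm_mul, norm_psi, norm_psi, one_mul]
      refine (Finset.sum_le_sum h2).trans ?_
      rw [Finset.sum_const, Finset.card_univ, ZMod.card, nsmul_eq_mul, mul_one]
    have hpR : (1 : ℝ) ≤ p := by exact_mod_cast hp.one_le
    have h3 : √(p : ℝ) * √(p : ℝ) = p := Real.mul_self_sqrt (by linarith)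
    have h4 : √(p : ℝ) ≤ 2 ^ k := by
      have h5 : √(p : ℝ) ≤ p := by
        rw [Real.sqrt_le_left (by linarith)]
        nlinarith
      have h6 : (p : ℝ) ≤ k := by exact_mod_cast h
      linarith
    calc _ ≤ (p : ℝ) := h1
      _ = √(p : ℝ) * √(p : ℝ) := h3.symm
      _ ≤ 2 ^ k * √(p : ℝ) := mul_le_mul_of_nonneg_right h4 hs0
  · obtain ⟨h1, h2⟩ := hP
    obtain ⟨i, hi, hpi⟩ := h2 p hp (dvd_refl p) h
    have h3 : (P.map (Int.castRingHom (ZMod p))).coeff i ≠ 0 := by
      rw [coeff_map]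
      intro h4
      exact hpi ((ZMod.intCast_zmod_eq_zero_iff_dvd _ _).1 h4)
    have h4 : i ≤ (P.map (Int.castRingHom (ZMod p))).natDegree := le_natDegree_of_ne_zero h3
    have h5 : (P.map (Int.castRingHom (ZMod p))).natDegree ≤ k := natDegree_map_le.trans h1
    have h6 : ¬ p ∣ (P.map (Int.castRingHom (ZMod p))).natDegree := by
      intro h7
      have := Nat.le_of_dvd (by omega) h7
      omega
    refine (complete (by omega) h6 a).trans ?_
    apply mul_le_mul_of_nonneg_right _ hs0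
    have h7 : (((P.map (Int.castRingHom (ZMod p))).natDegree - 1 : ℕ) : ℝ) ≤ (k : ℝ) := by
      have : (P.map (Int.castRingHom (ZMod p))).natDegree - 1 ≤ k := by omega
      exact_mod_cast this
    linarith

theorem NL_mul {k d : ℕ} {P : ℤ[X]} (hP : NL k d P) (d' : ℕ) (hd : d' ∣ d) (u : ℤ)
    (hu : ∀ p : ℕ, p.Prime → p ∣ d' → ¬ (p : ℤ) ∣ u) : NL k d' (C u * P) := by
  refine ⟨(natDegree_C_mul_le _ _).trans hP.1, ?_⟩
  intro p hp hpd hkp
  obtain ⟨i, hi, hpi⟩ := hP.2 p hp (hpd.trans hd) hkp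
  refine ⟨i, hi, ?_⟩
  rw [coeff_C_mul]
  intro h
  rcases (Nat.prime_iff_prime_int.mp hp).dvd_or_dvd h with h1 | h1
  · exact hu p hp hpd h1
  · exact hpi h1

theorem sq_sum {k : ℕ} (hk : 2 ≤ k) (d : ℕ) : ∀ [NeZero d], Squarefree d → ∀ P : ℤ[X], NL k d P →
    ∀ a : ZMod d, ‖∑ r : ZMod d, (ZMod.stdAddChar ((P.map (Int.castRingHom (ZMod d))).eval r) : ℂ) *
      (ZMod.stdAddChar (a * r) : ℂ)‖ ≤ (d.divisors.card : ℝ) ^ k * √(d : ℝ) := by
  induction d using Nat.strong_induction_on with
  | _ d ih =>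
    intro hd0 hsq P hP a
    rcases Nat.lt_or_ge 1 d with h1 | h1
    · set p : ℕ := d.minFac with hp'
      have hp : p.Prime := Nat.minFac_prime (by omega)
      obtain ⟨m, hm⟩ : p ∣ d := Nat.minFac_dvd d
      haveI : Fact p.Prime := ⟨hp⟩
      haveI : NeZero p := ⟨hp.ne_zero⟩
      have hm0 : m ≠ 0 := by
        rintro rfl
        rw [mul_zero] at hm
        omega
      haveI : NeZero m := ⟨hm0⟩
      have hmd : m < d := by
        rw [hm]
        have := hp.two_le
        have : 0 < m := Nat.pos_of_ne_zero hm0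
        nlinarith
      clear_value p
      subst hm
      obtain ⟨hco, hsp, hsm⟩ := Nat.squarefree_mul_iff.mp hsq
      obtain ⟨v, u, huv⟩ := (Nat.isCoprime_iff_coprime.2 hco : IsCoprime (p : ℤ) (m : ℤ))
      have hpR : (p : ℝ) ≠ 0 := by exact_mod_cast hp.ne_zero
      have hmR : (m : ℝ) ≠ 0 := by exact_mod_cast hm0
      have huvR : (v : ℝ) * p + u * m = 1 := by exact_mod_cast huv
      have hNu : NL k p (C u * P) := by
        apply NL_mul hP p (Dvd.intro m rfl) u
        intro p1 hp1 hp1p h2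
        have h3 : p1 = p := (Nat.prime_dvd_prime_iff_eq hp1 hp).mp hp1p
        subst h3
        have h4 : (p1 : ℤ) ∣ v * p1 + u * m := dvd_add (Dvd.intro_left v rfl) (h2.mul_right _)
        rw [huv] at h4
        exact hp1.one_lt.ne' (by exact_mod_cast Int.eq_one_of_dvd_one (by positivity) h4)
      have hNv : NL k m (C v * P) := by
        apply NL_mul hP m (Dvd.intro_left p rfl) v
        intro p1 hp1 hp1m h2
        have h4 : (p1 : ℤ) ∣ v * p + u * m :=
          dvd_add (h2.mul_right _) ((Int.natCast_dvd_natCast.mpr hp1m).mul_left _)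
        rw [huv] at h4
        exact hp1.one_lt.ne' (by exact_mod_cast Int.eq_one_of_dvd_one (by positivity) h4)
      obtain ⟨a1, a2, h4⟩ := crt_sum hco
        (fun x => (ZMod.stdAddChar (((C u * P).map (Int.castRingHom (ZMod p))).eval x) : ℂ))
        (fun x => (ZMod.stdAddChar (((C v * P).map (Int.castRingHom (ZMod m))).eval x) : ℂ)) a
      have h5 : ∑ r : ZMod (p * m), (ZMod.stdAddChar ((P.map (Int.castRingHom (ZMod (p * m)))).eval r) : ℂ) *
          (ZMod.stdAddChar (a * r) : ℂ) = ∑ r : ZMod (p * m),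
          ((ZMod.stdAddChar (((C u * P).map (Int.castRingHom (ZMod p))).eval (ZMod.chineseRemainder hco r).1) : ℂ) *
          (ZMod.stdAddChar (((C v * P).map (Int.castRingHom (ZMod m))).eval (ZMod.chineseRemainder hco r).2) : ℂ)) *
          (ZMod.stdAddChar (a * r) : ℂ) := by
        apply Finset.sum_congr rfl
        intro r _
        congr 1
        obtain ⟨j, rfl⟩ : ∃ j : ℕ, (j : ZMod (p * m)) = r := ⟨r.val, ZMod.natCast_zmod_val r⟩
        have h6 : ZMod.chineseRemainder hco (j : ZMod (p * m)) = ((j : ZMod p), (j : ZMod m)) := by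
          rw [map_natCast]
          rfl
        rw [h6]
        simp only
        rw [psi_poly, psi_poly, psi_poly, ← e_add]
        congr 1
        rw [eval_mul, eval_C, eval_mul, eval_C]
        push_cast
        field_simp
        linear_combination (-(((P.eval (j : ℤ) : ℤ)) : ℝ)) * huvR
      rw [h5, h4, norm_mul]
      have h7 := prime_sum hk (C u * P) hNu a1
      have h8 := ih m hmd hsm (C v * P) hNv a2
      have h9 : ((p * m).divisors.card : ℝ) = 2 * (m.divisors.card : ℝ) := by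
        rw [hco.card_divisors_mul, hp.divisors, Finset.card_pair hp.one_lt.ne]
        push_cast; ring
      have h10 : √((p * m : ℕ) : ℝ) = √(p : ℝ) * √(m : ℝ) := by
        push_cast
        exact Real.sqrt_mul (by positivity) _
      rw [h9, h10]
      calc _ ≤ (2 ^ k * √(p : ℝ)) * ((m.divisors.card : ℝ) ^ k * √(m : ℝ)) :=
            mul_le_mul h7 h8 (norm_nonneg _) (by positivity)
        _ = _ := by rw [mul_pow]; ring
    · have hd1 : d = 1 := by
        have := hd0.out
        omega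
      subst hd1
      refine (norm_sum_le _ _).trans ?_
      simp

end Pool.Agent.Helper68K9.MWQ
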