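import Pool.Agent.Helper68K9.MWQ.Sq

/-! # incomplete sums and pairs of squarefree moduli -/

set_option autoImplicit false

namespace Pool.Agent.Helper68K9.MWQ

open Finset Real Polynomial
open Pool.Agent.Y933.KD
open Pool.Agent.Y951.MW

/-- the bound for incomplete sums -/
noncomputable def Bq (k d N : ℕ) : ℝ := (d.divisors.card : ℝ) ^ k * √(d : ℝ) / d * (2 * N + d * (1 + Real.log d))

theorem inc {k d : ℕ} (hk : 2 ≤ k) (hd0 : d ≠ 0) (hd : Squarefree d) (P : ℤ[X]) (hP : NL k d P) (η : ℝ)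
    {u v N : ℕ} (hv : v ≤ N) :
    ‖∑ n ∈ Ioc u v, e (((P.eval (n : ℤ) : ℤ) : ℝ) / d + n * η)‖ ≤ Bq k d N := by
  haveI : NeZero d := ⟨hd0⟩
  have h1 := incompleteM (M := d) (u := u)
      (g := fun r => (ZMod.stdAddChar ((P.map (Int.castRingHom (ZMod d))).eval r) : ℂ))
      (Γ := (d.divisors.card : ℝ) ^ k * √(d : ℝ)) (by positivity) (fun a => sq_sum hk d hd P hP a) η hv
  refine le_trans (le_of_eq ?_) h1
  congr 1
  refine sum_congr rfl fun n _ => ?_
  rw [psi_poly, ← e_add]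

theorem sqf_dvd (n : ℕ) (hn : Squarefree n) (m : ℤ) (h : ∀ p : ℕ, p.Prime → p ∣ n → (p : ℤ) ∣ m) : (n : ℤ) ∣ m := by
  have h1 : ∏ p ∈ n.primeFactors, p = n := Nat.prod_primeFactors_of_squarefree hn
  have h2 : n ∣ m.natAbs := by
    rw [← h1]
    apply Finset.prod_primes_dvd
    · intro p hp
      exact (Nat.prime_of_mem_primeFactors hp).prime
    · intro p hp
      exact Int.natCast_dvd.mp (h p (Nat.prime_of_mem_primeFactors hp) (Nat.dvd_of_mem_primeFactors hp))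
  exact Int.natCast_dvd.mpr h2

/-- separating the primes modulo which the polynomial is linear -/
theorem split {k D : ℕ} (hk : 2 ≤ k) (hD : Squarefree D) (P : ℤ[X]) (hP : P.natDegree ≤ k) (A : ℕ) (hA : A ∣ D)
    (hA2 : ∀ p : ℕ, p.Prime → p ∣ A → k < p → ∃ i : ℕ, 2 ≤ i ∧ ¬ (p : ℤ) ∣ P.coeff i) :
    ∃ d : ℕ, d ∣ D ∧ A ∣ d ∧ ∀ (η : ℝ) (u v N : ℕ), v ≤ N →
      ‖∑ n ∈ Ioc u v, e (((P.eval (n : ℤ) : ℤ) : ℝ) / D + n * η)‖ ≤ Bq k d N := by
  classical
  have hD0 : D ≠ 0 := hD.ne_zero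
  set T : Finset ℕ := D.primeFactors.filter (fun p => k < p → ∃ i : ℕ, 2 ≤ i ∧ ¬ (p : ℤ) ∣ P.coeff i) with hT
  set T' : Finset ℕ := D.primeFactors.filter (fun p => ¬ (k < p → ∃ i : ℕ, 2 ≤ i ∧ ¬ (p : ℤ) ∣ P.coeff i)) with hT'
  set d : ℕ := ∏ p ∈ T, p with hd
  set m : ℕ := ∏ p ∈ T', p with hm
  have hDd : D = d * m := by
    rw [hd, hm, hT, hT', Finset.prod_filter_mul_prod_filter_not, Nat.prod_primeFactors_of_squarefree hD]
  have hTp : ∀ p ∈ T, p.Prime := fun p hp => Nat.prime_of_mem_primeFactors (Finset.mem_filter.mp hp).1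
  have hTp' : ∀ p ∈ T', p.Prime := fun p hp => Nat.prime_of_mem_primeFactors (Finset.mem_filter.mp hp).1
  have hd0 : d ≠ 0 := by rintro h; rw [h, zero_mul] at hDd; exact hD0 hDd
  have hm0 : m ≠ 0 := by rintro h; rw [h, mul_zero] at hDd; exact hD0 hDd
  have hsq := hD
  rw [hDd] at hsq
  obtain ⟨hco, hsd, hsm⟩ := Nat.squarefree_mul_iff.mp hsq
  have hdT : d.primeFactors = T := Nat.primeFactors_prod hTp
  have hmT : m.primeFactors = T' := Nat.primeFactors_prod hTp'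
  refine ⟨d, Dvd.intro m hDd.symm, ?_, ?_⟩
  · have hsA : Squarefree A := hD.squarefree_of_dvd hA
    rw [← Nat.prod_primeFactors_of_squarefree hsA]
    apply Finset.prod_primes_dvd
    · intro p hp
      exact (Nat.prime_of_mem_primeFactors hp).prime
    · intro p hp
      have hpp := Nat.prime_of_mem_primeFactors hp
      have hpA := Nat.dvd_of_mem_primeFactors hp
      apply Nat.dvd_of_mem_primeFactors
      rw [hdT, hT, Finset.mem_filter]
      refine ⟨Nat.mem_primeFactors.mpr ⟨hpp, hpA.trans hA, hD0⟩, fun hkp => hA2 p hpp hpA hkp⟩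
  · intro η u v N hv
    obtain ⟨x, y, hxy⟩ := (Nat.isCoprime_iff_coprime.2 hco : IsCoprime (d : ℤ) (m : ℤ))
    have hdR : (d : ℝ) ≠ 0 := by exact_mod_cast hd0
    have hmR : (m : ℝ) ≠ 0 := by exact_mod_cast hm0
    have hxyR : (x : ℝ) * d + y * m = 1 := by exact_mod_cast hxy
    have hNy : NL k d (C y * P) := by
      apply NL_mul (d := d) ⟨hP, ?_⟩ d (dvd_refl d) y
      · intro p1 hp1 hp1d h2
        have h4 : (p1 : ℤ) ∣ x * d + y * m :=
          dvd_add ((Int.natCast_dvd_natCast.mpr hp1d).mul_left _) (h2.mul_right _)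
        rw [hxy] at h4
        exact hp1.one_lt.ne' (by exact_mod_cast Int.eq_one_of_dvd_one (by positivity) h4)
      · intro p hp hpd hkp
        have : p ∈ d.primeFactors := Nat.mem_primeFactors.mpr ⟨hp, hpd, hd0⟩
        rw [hdT, hT, Finset.mem_filter] at this
        exact this.2 hkp
    have hlin : ∀ i : ℕ, 2 ≤ i → (m : ℤ) ∣ P.coeff i := by
      intro i hi
      apply sqf_dvd m hsm
      intro p hp hpm
      have : p ∈ m.primeFactors := Nat.mem_primeFactors.mpr ⟨hp, hpm, hm0⟩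
      rw [hmT, hT', Finset.mem_filter] at this
      by_contra hcon
      exact this.2 (fun _ => ⟨i, hi, hcon⟩)
    have hval : ∀ n : ℤ, ∃ z : ℤ, P.eval n = P.coeff 0 + P.coeff 1 * n + m * z := by
      intro n
      have h1 := P.eval_eq_sum_range' (show P.natDegree < k + 2 by omega) n
      rw [Finset.sum_range_succ', Finset.sum_range_succ'] at h1
      obtain ⟨z, hz⟩ : (m : ℤ) ∣ ∑ i ∈ range k, P.coeff (i + 1 + 1) * n ^ (i + 1 + 1) := by
        apply Finset.dvd_sum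
        intro i _
        exact (hlin (i + 1 + 1) (by omega)).mul_right _
      refine ⟨z, ?_⟩
      rw [h1, hz]
      ring
    have h1 := inc hk hd0 hsd (C y * P) hNy (η + (x : ℝ) * P.coeff 1 / m) (u := u) hv
    have h2 : ∑ n ∈ Ioc u v, e (((P.eval (n : ℤ) : ℤ) : ℝ) / D + n * η) =
        e ((x : ℝ) * P.coeff 0 / m) *
          ∑ n ∈ Ioc u v, e ((((C y * P).eval (n : ℤ) : ℤ) : ℝ) / d + n * (η + (x : ℝ) * P.coeff 1 / m)) := by
      rw [Finset.mul_sum]
      apply Finset.sum_congr rfl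
      intro n _
      obtain ⟨z, hz⟩ := hval (n : ℤ)
      rw [← e_add]
      have h3 : ((P.eval (n : ℤ) : ℤ) : ℝ) / D + n * η =
          (x : ℝ) * P.coeff 0 / m + ((((C y * P).eval (n : ℤ) : ℤ) : ℝ) / d +
            n * (η + (x : ℝ) * P.coeff 1 / m)) + ((x * z : ℤ) : ℝ) := by
        rw [eval_mul, eval_C, hDd]
        have h4 : ((P.eval (n : ℤ) : ℤ) : ℝ) = P.coeff 0 + P.coeff 1 * n + m * z := by
          rw [hz]; push_cast; ring
        push_cast
        have h5 : ((P.eval (n : ℤ) : ℤ) : ℝ) / ((d : ℝ) * m) =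
            x * ((P.eval (n : ℤ) : ℤ) : ℝ) / m + y * ((P.eval (n : ℤ) : ℤ) : ℝ) / d := by
          field_simp
          linear_combination (-((P.eval (n : ℤ) : ℤ) : ℝ)) * hxyR
        rw [h5]
        have h6 : x * ((P.eval (n : ℤ) : ℤ) : ℝ) / m = (x : ℝ) * P.coeff 0 / m + n * ((x : ℝ) * P.coeff 1 / m) +
            (x : ℝ) * z := by
          rw [h4]
          field_simp
        rw [h6]
        ring
      rw [h3, e_add_int]
    rw [h2, norm_mul, norm_e, one_mul]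
    exact h1

/-- two squarefree moduli -/
theorem pair {k q q' : ℕ} (hk : 2 ≤ k) (hq : Squarefree q) (hq' : Squarefree q') (f f' : ℤ[X])
    (hf : NL k q f) (hf' : NL k q' f') (B : ℝ) (hB : ∀ n : ℕ, 1 ≤ n → n ≤ q * q' → (n.divisors.card : ℝ) ≤ B)
    (η : ℝ) {u v N : ℕ} (hv : v ≤ N) :
    ‖∑ n ∈ Ioc u v, e (((f.eval (n : ℤ) : ℤ) : ℝ) / q - ((f'.eval (n : ℤ) : ℤ) : ℝ) / q' + n * η)‖ ≤
      B ^ k * (2 * N * (Nat.gcd q q' : ℝ) / √((q : ℝ) * q') + √((q : ℝ) * q') * (1 + Real.log ((q : ℝ) * q'))) := by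
  have hq0 : q ≠ 0 := hq.ne_zero
  have hq0' : q' ≠ 0 := hq'.ne_zero
  set g : ℕ := Nat.gcd q q' with hg
  have hg0 : 0 < g := Nat.gcd_pos_of_pos_left _ (Nat.pos_of_ne_zero hq0)
  obtain ⟨a, ha⟩ : g ∣ q := Nat.gcd_dvd_left q q'
  obtain ⟨b, hb⟩ : g ∣ q' := Nat.gcd_dvd_right q q'
  have hab : a.Coprime b := by
    have h1 : Nat.gcd (g * a) (g * b) = g := by rw [← ha, ← hb]
    rw [Nat.gcd_mul_left] at h1
    exact Nat.eq_of_mul_eq_mul_left hg0 (by rw [h1, mul_one])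
  have hq2 := hq
  have hq2' := hq'
  rw [ha] at hq2
  rw [hb] at hq2'
  obtain ⟨hga, hsg, hsa⟩ := Nat.squarefree_mul_iff.mp hq2
  obtain ⟨hgb, _, hsb⟩ := Nat.squarefree_mul_iff.mp hq2'
  have hsab : Squarefree (a * b) := Nat.squarefree_mul_iff.mpr ⟨hab, hsa, hsb⟩
  set D : ℕ := g * (a * b) with hD
  have hsD : Squarefree D := Nat.squarefree_mul_iff.mpr ⟨Nat.Coprime.mul_right hga hgb, hsg, hsab⟩
  have ha0 : a ≠ 0 := hsa.ne_zero
  have hb0 : b ≠ 0 := hsb.ne_zero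
  have hcopZ : IsCoprime (a : ℤ) (b : ℤ) := Nat.isCoprime_iff_coprime.2 hab
  set P : ℤ[X] := C (b : ℤ) * f - C (a : ℤ) * f' with hP
  have hPd : P.natDegree ≤ k := (natDegree_sub_le _ _).trans
    (max_le ((natDegree_C_mul_le _ _).trans hf.1) ((natDegree_C_mul_le _ _).trans hf'.1))
  obtain ⟨d, hdD, habd, hsum⟩ := split hk hsD P hPd (a * b) (Dvd.intro_left g rfl) (by
    intro p hp hpab hkp
    rcases (Nat.Prime.dvd_mul hp).mp hpab with h1 | h1
    · obtain ⟨i, hi, hpi⟩ := hf.2 p hp (h1.trans (Dvd.intro_left g ha.symm)) hkp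
      refine ⟨i, hi, ?_⟩
      rw [hP, coeff_sub, coeff_C_mul, coeff_C_mul]
      intro h2
      have h3 : (p : ℤ) ∣ (a : ℤ) * f'.coeff i := (Int.natCast_dvd_natCast.mpr h1).mul_right _
      have h4 : (p : ℤ) ∣ (b : ℤ) * f.coeff i := by
        have := dvd_add h2 h3
        simpa using this
      rcases (Nat.prime_iff_prime_int.mp hp).dvd_or_dvd h4 with h5 | h5
      · have h6 : p ∣ b := Int.natCast_dvd_natCast.mp h5
        have h7 := Nat.dvd_gcd h1 h6
        rw [hab.gcd_eq_one] at h7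
        exact hp.one_lt.ne' (Nat.dvd_one.mp h7)
      · exact hpi h5
    · obtain ⟨i, hi, hpi⟩ := hf'.2 p hp (h1.trans (Dvd.intro_left g hb.symm)) hkp
      refine ⟨i, hi, ?_⟩
      rw [hP, coeff_sub, coeff_C_mul, coeff_C_mul]
      intro h2
      have h3 : (p : ℤ) ∣ (b : ℤ) * f.coeff i := (Int.natCast_dvd_natCast.mpr h1).mul_right _
      have h4 : (p : ℤ) ∣ (a : ℤ) * f'.coeff i := by
        have := dvd_sub h3 h2
        simpa using this
      rcases (Nat.prime_iff_prime_int.mp hp).dvd_or_dvd h4 with h5 | h5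
      · have h6 : p ∣ a := Int.natCast_dvd_natCast.mp h5
        have h7 := Nat.dvd_gcd h6 h1
        rw [hab.gcd_eq_one] at h7
        exact hp.one_lt.ne' (Nat.dvd_one.mp h7)
      · exact hpi h5)
  have hD0 : 0 < D := Nat.pos_of_ne_zero hsD.ne_zero
  have hd0 : 0 < d := Nat.pos_of_dvd_of_pos hdD hD0
  have habd' : a * b ≤ d := Nat.le_of_dvd hd0 habd
  have hdD' : d ≤ D := Nat.le_of_dvd hD0 hdD
  have hDqq : D ≤ q * q' := by
    rw [hD, ha, hb]
    have : g * (a * b) * 1 ≤ g * (a * b) * g := Nat.mul_le_mul_left _ hg0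
    calc g * (a * b) = g * (a * b) * 1 := by ring
      _ ≤ g * (a * b) * g := this
      _ = g * a * (g * b) := by ring
  have hqd : q * q' ≤ d * g ^ 2 := by
    rw [ha, hb]
    calc g * a * (g * b) = a * b * g ^ 2 := by ring
      _ ≤ d * g ^ 2 := Nat.mul_le_mul_right _ habd'
  have h1 := hsum η u v N hv
  have h2 : ∑ n ∈ Ioc u v, e (((f.eval (n : ℤ) : ℤ) : ℝ) / q - ((f'.eval (n : ℤ) : ℤ) : ℝ) / q' + n * η) =
      ∑ n ∈ Ioc u v, e (((P.eval (n : ℤ) : ℤ) : ℝ) / D + n * η) := by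
    apply Finset.sum_congr rfl
    intro n _
    congr 1
    congr 1
    rw [hP, eval_sub, eval_mul, eval_mul, eval_C, eval_C, hD]
    have e1 : (q : ℝ) = g * a := by exact_mod_cast ha
    have e2 : (q' : ℝ) = g * b := by exact_mod_cast hb
    have g0 : (g : ℝ) ≠ 0 := by exact_mod_cast hg0.ne'
    have a0 : (a : ℝ) ≠ 0 := by exact_mod_cast ha0
    have b0 : (b : ℝ) ≠ 0 := by exact_mod_cast hb0
    rw [e1, e2]
    push_cast
    field_simp
  rw [h2]
  refine h1.trans ?_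
  unfold Bq
  have hdR : (1 : ℝ) ≤ d := by exact_mod_cast hd0
  have hd0R : (0 : ℝ) < d := by linarith
  have hqR : (1 : ℝ) ≤ q := by exact_mod_cast Nat.one_le_iff_ne_zero.mpr hq0
  have hqR' : (1 : ℝ) ≤ q' := by exact_mod_cast Nat.one_le_iff_ne_zero.mpr hq0'
  have hdq : (d : ℝ) ≤ q * q' := by exact_mod_cast hdD'.trans hDqq
  have hqdR : (q : ℝ) * q' ≤ d * (g : ℝ) ^ 2 := by exact_mod_cast hqd
  have hsd : 0 < √(d : ℝ) := Real.sqrt_pos.2 hd0R
  have hss : √(d : ℝ) * √(d : ℝ) = d := Real.mul_self_sqrt hd0R.le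
  have hqq0 : (0 : ℝ) < (q : ℝ) * q' := by positivity
  have hsq : 0 < √((q : ℝ) * q') := Real.sqrt_pos.2 hqq0
  have h3 : (d.divisors.card : ℝ) ≤ B := hB d hd0 (hdD'.trans hDqq)
  have hc0 : (0 : ℝ) ≤ (d.divisors.card : ℝ) := Nat.cast_nonneg _
  have h4 : (d.divisors.card : ℝ) ^ k ≤ B ^ k := pow_le_pow_left₀ hc0 h3 k
  have h5 : (d.divisors.card : ℝ) ^ k * √(d : ℝ) / d * (2 * N + d * (1 + Real.log d)) =
      (d.divisors.card : ℝ) ^ k * (2 * N / √(d : ℝ) + √(d : ℝ) * (1 + Real.log d)) := by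
    have e1 : √(d : ℝ) / d = 1 / √(d : ℝ) := by
      rw [div_eq_div_iff hd0R.ne' hsd.ne', one_mul, hss]
    calc (d.divisors.card : ℝ) ^ k * √(d : ℝ) / d * (2 * N + d * (1 + Real.log d)) =
          (d.divisors.card : ℝ) ^ k * ((√(d : ℝ) / d) * (2 * N + d * (1 + Real.log d))) := by ring
      _ = (d.divisors.card : ℝ) ^ k * ((1 / √(d : ℝ)) * (2 * N + √(d : ℝ) * √(d : ℝ) * (1 + Real.log d))) := by
          rw [e1, hss]
      _ = _ := by
          congr 1
          generalize √(d : ℝ) = y at hsd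
          field_simp
  rw [h5]
  have hlogd : 0 ≤ Real.log d := Real.log_nonneg hdR
  have h6 : 2 * (N : ℝ) / √(d : ℝ) ≤ 2 * N * (g : ℝ) / √((q : ℝ) * q') := by
    rw [div_le_div_iff₀ hsd hsq]
    have h7 : √((q : ℝ) * q') ≤ g * √(d : ℝ) := by
      rw [Real.sqrt_le_left (by positivity), mul_pow, sq (√(d : ℝ)), hss]
      linarith
    calc 2 * (N : ℝ) * √((q : ℝ) * q') ≤ 2 * N * (g * √(d : ℝ)) := mul_le_mul_of_nonneg_left h7 (by positivity)
      _ = _ := by ring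
  have h7 : √(d : ℝ) * (1 + Real.log d) ≤ √((q : ℝ) * q') * (1 + Real.log ((q : ℝ) * q')) := by
    apply mul_le_mul (Real.sqrt_le_sqrt hdq) _ (by linarith) hsq.le
    have := Real.log_le_log hd0R hdq
    linarith
  exact mul_le_mul h4 (add_le_add h6 h7) (by positivity) ((pow_nonneg hc0 k).trans h4)

end Pool.Agent.Helper68K9.MWQ
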