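import Pool.Agent.Helper68K9.MWQ.Sq2

/-! # large values over squarefree moduli -/

set_option autoImplicit false

namespace Pool.Agent.Helper68K9.MWQ

open Finset Real Polynomial
open Pool.Agent.Y933.KD
open Pool.Agent.Y951.MW

/-- the duality inequality, with individual bounds for the correlations -/
theorem duality2 {ι : Type*} (B : Finset ι) (N : ℕ) (c : ℕ → ℂ) (hc : ∀ n, ‖c n‖ ≤ 1)
    (f : ι → ℕ → ℂ) {V : ℝ} (hV0 : 0 ≤ V) (G : ι → ι → ℝ)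
    (hV : ∀ b ∈ B, V ≤ ‖∑ n ∈ Ioc 0 N, c n * f b n‖)
    (ho : ∀ b ∈ B, ∀ b' ∈ B, ‖∑ n ∈ Ioc 0 N, f b n * (starRingEnd ℂ) (f b' n)‖ ≤ G b b') :
    ((B.card : ℝ) * V) ^ 2 ≤ N * ∑ b ∈ B, ∑ b' ∈ B, G b b' := by
  classical
  choose w hw1 hw2 using fun b : ι => exists_rot (∑ n ∈ Ioc 0 N, c n * f b n)
  have h1 : (B.card : ℝ) * V ≤ ∑ b ∈ B, ‖∑ n ∈ Ioc 0 N, c n * f b n‖ := by
    rw [← nsmul_eq_mul, ← sum_const]
    exact sum_le_sum hV
  have h2 : ((∑ b ∈ B, ‖∑ n ∈ Ioc 0 N, c n * f b n‖ : ℝ) : ℂ) =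
      ∑ n ∈ Ioc 0 N, c n * ∑ b ∈ B, w b * f b n := by
    push_cast
    rw [sum_congr rfl fun b _ => (hw2 b).symm]
    simp only [mul_sum]
    rw [sum_comm]
    refine sum_congr rfl fun n _ => sum_congr rfl fun b _ => ?_
    ring
  have h3 : ∑ b ∈ B, ‖∑ n ∈ Ioc 0 N, c n * f b n‖ ≤
      ∑ n ∈ Ioc 0 N, ‖∑ b ∈ B, w b * f b n‖ := by
    have h4 : ∑ b ∈ B, ‖∑ n ∈ Ioc 0 N, c n * f b n‖ =
        ‖((∑ b ∈ B, ‖∑ n ∈ Ioc 0 N, c n * f b n‖ : ℝ) : ℂ)‖ := by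
      rw [Complex.norm_real, Real.norm_of_nonneg (sum_nonneg fun b _ => norm_nonneg _)]
    rw [h4, h2]
    refine (norm_sum_le _ _).trans (sum_le_sum fun n _ => ?_)
    rw [norm_mul]
    calc ‖c n‖ * ‖∑ b ∈ B, w b * f b n‖ ≤ 1 * ‖∑ b ∈ B, w b * f b n‖ :=
          mul_le_mul_of_nonneg_right (hc n) (norm_nonneg _)
      _ = _ := one_mul _
  have h4 : (∑ n ∈ Ioc 0 N, ‖∑ b ∈ B, w b * f b n‖) ^ 2 ≤
      N * ∑ n ∈ Ioc 0 N, ‖∑ b ∈ B, w b * f b n‖ ^ 2 := by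
    have h5 := sq_sum_le_card_mul_sum_sq (s := Ioc 0 N) (f := fun n => ‖∑ b ∈ B, w b * f b n‖)
    rw [Nat.card_Ioc, Nat.sub_zero] at h5
    exact h5
  have h5 : ((∑ n ∈ Ioc 0 N, ‖∑ b ∈ B, w b * f b n‖ ^ 2 : ℝ) : ℂ) =
      ∑ b ∈ B, ∑ b' ∈ B, w b * (starRingEnd ℂ) (w b') *
        ∑ n ∈ Ioc 0 N, f b n * (starRingEnd ℂ) (f b' n) := by
    push_cast
    have h6 : ∀ n, (‖∑ b ∈ B, w b * f b n‖ : ℂ) ^ 2 =
        ∑ b ∈ B, ∑ b' ∈ B, w b * (starRingEnd ℂ) (w b') * (f b n * (starRingEnd ℂ) (f b' n)) := by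
      intro n
      have h7 : (‖∑ b ∈ B, w b * f b n‖ : ℂ) ^ 2 =
          (∑ b ∈ B, w b * f b n) * (starRingEnd ℂ) (∑ b ∈ B, w b * f b n) := by
        rw [Complex.mul_conj, Complex.normSq_eq_norm_sq]
        push_cast
        rfl
      rw [h7, map_sum, sum_mul_sum]
      refine sum_congr rfl fun b _ => sum_congr rfl fun b' _ => ?_
      rw [map_mul]
      ring
    rw [sum_congr rfl fun n _ => h6 n, sum_comm]
    refine sum_congr rfl fun b _ => ?_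
    rw [sum_comm]
    refine sum_congr rfl fun b' _ => ?_
    rw [mul_sum]
  have h6 : ∑ n ∈ Ioc 0 N, ‖∑ b ∈ B, w b * f b n‖ ^ 2 ≤ ∑ b ∈ B, ∑ b' ∈ B, G b b' := by
    have h7 : ∑ n ∈ Ioc 0 N, ‖∑ b ∈ B, w b * f b n‖ ^ 2 =
        ‖((∑ n ∈ Ioc 0 N, ‖∑ b ∈ B, w b * f b n‖ ^ 2 : ℝ) : ℂ)‖ := by
      rw [Complex.norm_real, Real.norm_of_nonneg (sum_nonneg fun b _ => sq_nonneg _)]
    rw [h7, h5]
    refine (norm_sum_le _ _).trans (sum_le_sum fun b hb => ?_)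
    refine (norm_sum_le _ _).trans (sum_le_sum fun b' hb' => ?_)
    rw [norm_mul, norm_mul, RCLike.norm_conj]
    have h8 : ‖w b‖ * ‖w b'‖ ≤ 1 := mul_le_one₀ (hw1 b) (norm_nonneg _) (hw1 b')
    calc ‖w b‖ * ‖w b'‖ * ‖∑ n ∈ Ioc 0 N, f b n * (starRingEnd ℂ) (f b' n)‖
        ≤ 1 * ‖∑ n ∈ Ioc 0 N, f b n * (starRingEnd ℂ) (f b' n)‖ := mul_le_mul_of_nonneg_right h8 (norm_nonneg _)
      _ ≤ G b b' := by rw [one_mul]; exact ho b hb b' hb'
  have h7 : 0 ≤ (B.card : ℝ) * V := by positivity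
  calc ((B.card : ℝ) * V) ^ 2 ≤ (∑ n ∈ Ioc 0 N, ‖∑ b ∈ B, w b * f b n‖) ^ 2 :=
        pow_le_pow_left₀ h7 (h1.trans h3) 2
    _ ≤ N * ∑ n ∈ Ioc 0 N, ‖∑ b ∈ B, w b * f b n‖ ^ 2 := h4
    _ ≤ _ := mul_le_mul_of_nonneg_left h6 (Nat.cast_nonneg N)

/-- large values, general phases -/
theorem largeG {ι : Type*} {N : ℕ} (φ : ι → ℕ → ℝ) (B : Finset ι) (G : ι → ι → ℝ)
    (hinc : ∀ b ∈ B, ∀ b' ∈ B, ∀ (η : ℝ) (u v : ℕ), v ≤ N →
      ‖∑ n ∈ Finset.Ioc u v, e (φ b n - φ b' n + n * η)‖ ≤ G b b')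
    (c : ℕ → ℂ) (hc : ∀ n, ‖c n‖ ≤ 1)
    (ξ : ι → ℝ) (u v : ι → ℕ) (hv : ∀ b ∈ B, v b ≤ N) {V : ℝ} (hV0 : 0 ≤ V)
    (hV : ∀ b ∈ B, V ≤ ‖∑ n ∈ Finset.Ioc (u b) (v b), c n * e (φ b n + ξ b * n)‖) :
    ((B.card : ℝ) * V) ^ 2 ≤ N * ∑ b ∈ B, ∑ b' ∈ B, G b b' := by
  classical
  set f : ι → ℕ → ℂ := fun b n => if n ∈ Finset.Ioc (u b) (v b) then
    e (φ b n + ξ b * n) else 0 with hf
  have hsub : ∀ b ∈ B, Finset.Ioc (u b) (v b) ⊆ Finset.Ioc 0 N := by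
    intro b hb n hn
    have := hv b hb
    rw [Finset.mem_Ioc] at hn ⊢
    omega
  refine duality2 B N c hc f hV0 G ?_ ?_
  · intro b hb
    have h1 : ∑ n ∈ Finset.Ioc 0 N, c n * f b n = ∑ n ∈ Finset.Ioc (u b) (v b),
        c n * e (φ b n + ξ b * n) := by
      rw [hf]
      simp only [mul_ite, mul_zero]
      rw [← sum_filter, filter_mem_eq_inter, inter_eq_right.2 (hsub b hb)]
    rw [h1]
    exact hV b hb
  · intro b hb b' hb'
    have h1 : ∑ n ∈ Finset.Ioc 0 N, f b n * (starRingEnd ℂ) (f b' n) =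
        ∑ n ∈ Finset.Ioc (max (u b) (u b')) (min (v b) (v b')),
          e (φ b n - φ b' n + n * (ξ b - ξ b')) := by
      have h2 : ∀ n, f b n * (starRingEnd ℂ) (f b' n) =
          if n ∈ Finset.Ioc (max (u b) (u b')) (min (v b) (v b')) then
            e (φ b n - φ b' n + n * (ξ b - ξ b'))
          else 0 := by
        intro n
        rw [hf]
        simp only
        by_cases h3 : n ∈ Finset.Ioc (u b) (v b)
        · by_cases h4 : n ∈ Finset.Ioc (u b') (v b')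
          · rw [if_pos h3, if_pos h4, if_pos, conj_e, ← e_add]
            · congr 1; ring
            · rw [Finset.mem_Ioc] at h3 h4 ⊢
              omega
          · rw [if_neg h4, map_zero, mul_zero, if_neg]
            intro h5
            rw [Finset.mem_Ioc] at h4 h5
            omega
        · rw [if_neg h3, zero_mul, if_neg]
          intro h5
          rw [Finset.mem_Ioc] at h3 h5
          omega
      rw [sum_congr rfl fun n _ => h2 n, ← sum_filter, filter_mem_eq_inter, inter_eq_right.2]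
      intro n hn
      have := hv b hb
      rw [Finset.mem_Ioc] at hn ⊢
      omega
    rw [h1]
    exact hinc b hb b' hb' _ _ _ ((min_le_left _ _).trans (hv b hb))

theorem gcd_sum (q Q : ℕ) (hq : 1 ≤ q) (S : Finset ℕ) (hS : S ⊆ Ioc 0 (4 * Q)) :
    ∑ q' ∈ S, (Nat.gcd q q' : ℝ) ≤ 4 * (Q : ℝ) * (q.divisors.card : ℝ) := by
  classical
  have h1 : ∑ q' ∈ S, (Nat.gcd q q' : ℝ) ≤ ∑ q' ∈ Ioc 0 (4 * Q), ∑ g ∈ q.divisors, if g ∣ q' then (g : ℝ) else 0 := by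
    refine (Finset.sum_le_sum_of_subset_of_nonneg hS (fun _ _ _ => Nat.cast_nonneg _)).trans ?_
    apply Finset.sum_le_sum
    intro q' _
    have h2 : Nat.gcd q q' ∈ q.divisors := Nat.mem_divisors.mpr ⟨Nat.gcd_dvd_left _ _, by omega⟩
    have h3 := Finset.single_le_sum (f := fun g : ℕ => if g ∣ q' then (g : ℝ) else 0) (s := q.divisors) (by
      intro g _
      split_ifs
      · exact Nat.cast_nonneg _
      · exact le_rfl) h2
    simp only [Nat.gcd_dvd_right, if_true] at h3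
    exact h3
  refine h1.trans ?_
  rw [Finset.sum_comm]
  calc ∑ g ∈ q.divisors, ∑ q' ∈ Ioc 0 (4 * Q), (if g ∣ q' then (g : ℝ) else 0) ≤ ∑ _g ∈ q.divisors, 4 * (Q : ℝ) := by
        apply Finset.sum_le_sum
        intro g hg
        rw [← Finset.sum_filter, Finset.sum_const, nsmul_eq_mul, Nat.Ioc_filter_dvd_card_eq_div]
        have h4 : 4 * Q / g * g ≤ 4 * Q := Nat.div_mul_le_self _ _
        exact_mod_cast h4
    _ = _ := by rw [Finset.sum_const, nsmul_eq_mul]; ring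

/-- **large values over squarefree moduli** -/
theorem sqf (k : ℕ) (hk : 2 ≤ k) (ε : ℝ) (hε : 0 < ε) : ∃ C : ℝ, 1 ≤ C ∧ ∀ Q N : ℕ, 1 ≤ Q →
    ∀ c : ℕ → ℂ, (∀ n, ‖c n‖ ≤ 1) → ∀ V : ℝ, 0 < V → C * N * (Q : ℝ) ^ (1 + ε) ≤ V ^ 2 →
    ∀ S : Finset ℕ, (∀ q ∈ S, Squarefree q ∧ Q ≤ q ∧ q ≤ 4 * Q ∧ ∃ f : ℤ[X], NL k q f ∧
      ∃ (ξ : ℝ) (u v : ℕ), v ≤ N ∧
        V ≤ ‖∑ n ∈ Finset.Ioc u v, c n * e (((f.eval (n : ℤ) : ℤ) : ℝ) / q + ξ * n)‖) →
    (S.card : ℝ) ≤ C * (Q : ℝ) ^ ε * (N : ℝ) ^ 2 / V ^ 2 := by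
  classical
  set δ : ℝ := ε / (4 * (k + 1)) with hδ
  have hδ0 : 0 < δ := by positivity
  obtain ⟨C0, hC0, hC⟩ := Pool.Agent.Helper112.divisor_bound δ hδ0
  set K : ℝ := (C0 * 16 ^ δ) ^ (k + 1) with hK
  have hK0 : 0 < K := by positivity
  set L0 : ℝ := 1 + Real.log 16 + 4 / ε with hL0
  have hlog16 : 0 ≤ Real.log 16 := Real.log_nonneg (by norm_num)
  have hL00 : 0 < L0 := by positivity
  refine ⟨1 + 16 * K + 8 * K * L0, by
    have : 0 ≤ 16 * K + 8 * K * L0 := by positivity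
    linarith, ?_⟩
  intro Q N hQ c hc V hV hV2 S hS
  have hQ' : (1 : ℝ) ≤ Q := by exact_mod_cast hQ
  have hQ0 : (0 : ℝ) < Q := by linarith
  set B : ℝ := C0 * (16 * (Q : ℝ) ^ 2) ^ δ with hB
  have hBn : ∀ n : ℕ, 1 ≤ n → n ≤ 16 * Q ^ 2 → (n.divisors.card : ℝ) ≤ B := by
    intro n hn hn2
    refine (hC n hn).trans ?_
    apply mul_le_mul_of_nonneg_left _ hC0.le
    apply Real.rpow_le_rpow (Nat.cast_nonneg n) _ hδ0.le
    exact_mod_cast hn2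
  have hB1 : 1 ≤ B := by
    have h1 := hBn 1 le_rfl (by nlinarith [Nat.pos_of_ne_zero (show Q ^ 2 ≠ 0 by positivity)])
    simpa using h1
  have hBk : B ^ (k + 1) = K * (Q : ℝ) ^ (ε / 2) := by
    have h1 : (16 * (Q : ℝ) ^ 2) ^ δ = 16 ^ δ * (Q : ℝ) ^ (2 * δ) := by
      rw [Real.mul_rpow (by norm_num) (by positivity), ← Real.rpow_natCast (Q : ℝ) 2, ← Real.rpow_mul hQ0.le]
      norm_num
    rw [hB, h1, ← mul_assoc, mul_pow, hK]
    congr 1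
    rw [← Real.rpow_natCast, ← Real.rpow_mul hQ0.le]
    congr 1
    rw [hδ]
    push_cast
    field_simp
    ring
  have hBk' : B ^ k ≤ K * (Q : ℝ) ^ (ε / 2) := by
    rw [← hBk]
    exact pow_le_pow_right₀ hB1 (by omega)
  set L : ℝ := 1 + Real.log (16 * (Q : ℝ) ^ 2) with hL
  have hL1 : L ≤ L0 * (Q : ℝ) ^ (ε / 2) := by
    have h1 : Real.log (16 * (Q : ℝ) ^ 2) = Real.log 16 + 2 * Real.log Q := by
      rw [Real.log_mul (by norm_num) (by positivity), Real.log_pow]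
      push_cast; ring
    have h2 : Real.log Q ≤ (Q : ℝ) ^ (ε / 2) / (ε / 2) := Real.log_le_rpow_div hQ0.le (by positivity)
    have h3 : (1 : ℝ) ≤ (Q : ℝ) ^ (ε / 2) := Real.one_le_rpow hQ' (by positivity)
    have h4 : (Q : ℝ) ^ (ε / 2) / (ε / 2) = 2 / ε * (Q : ℝ) ^ (ε / 2) := by field_simp
    rw [hL, h1, hL0]
    rw [h4] at h2
    have h5 : 4 / ε = 2 * (2 / ε) := by ring
    rw [h5]
    nlinarith
  have hL2 : 0 ≤ L := by
    have : 0 ≤ Real.log (16 * (Q : ℝ) ^ 2) := Real.log_nonneg (by nlinarith)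
    rw [hL]; linarith
  choose! f hf using fun q (hq : q ∈ S) => (hS q hq).2.2.2
  choose! ξ u v hv using fun q (hq : q ∈ S) => (hf q hq).2
  set G : ℕ → ℕ → ℝ := fun q q' => B ^ k * (2 * N * (Nat.gcd q q' : ℝ) / Q + 4 * Q * L) with hG
  have h1 := largeG (N := N) (fun (q : ℕ) n => (((f q).eval (n : ℤ) : ℤ) : ℝ) / q) S G (by
    intro q hq q' hq' η u v hv
    obtain ⟨hs, hQ1, hQ2, _⟩ := hS q hq
    obtain ⟨hs', hQ1', hQ2', _⟩ := hS q' hq'
    have hqR : (Q : ℝ) ≤ q := by exact_mod_cast hQ1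
    have hqR' : (Q : ℝ) ≤ q' := by exact_mod_cast hQ1'
    have hqR2 : (q : ℝ) ≤ 4 * Q := by exact_mod_cast hQ2
    have hqR2' : (q' : ℝ) ≤ 4 * Q := by exact_mod_cast hQ2'
    have hqq : q * q' ≤ 16 * Q ^ 2 := by
      calc q * q' ≤ (4 * Q) * (4 * Q) := Nat.mul_le_mul hQ2 hQ2'
        _ = 16 * Q ^ 2 := by ring
    have h2 := pair hk hs hs' (f q) (f q') (hf q hq).1 (hf q' hq').1 B
      (fun n hn hn2 => hBn n hn (hn2.trans hqq)) η (u := u) hv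
    refine h2.trans ?_
    rw [hG]
    simp only
    apply mul_le_mul_of_nonneg_left _ (by positivity)
    have h3 : (Q : ℝ) ≤ √((q : ℝ) * q') := by
      apply Real.le_sqrt_of_sq_le
      nlinarith
    have h4 : √((q : ℝ) * q') ≤ 4 * Q := by
      rw [Real.sqrt_le_left (by linarith)]
      nlinarith
    have h5 : Real.log ((q : ℝ) * q') ≤ Real.log (16 * (Q : ℝ) ^ 2) := by
      apply Real.log_le_log (by nlinarith)
      nlinarith
    have h6 : 0 ≤ Real.log ((q : ℝ) * q') := Real.log_nonneg (by nlinarith)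
    apply add_le_add
    · apply div_le_div_of_nonneg_left _ hQ0 h3
      have : (0 : ℝ) ≤ (Nat.gcd q q' : ℝ) := Nat.cast_nonneg _
      positivity
    · apply mul_le_mul h4 _ (by linarith) (by linarith)
      rw [hL]; linarith) c hc ξ u v (fun q hq => (hv q hq).1) hV.le (fun q hq => (hv q hq).2)
  set R : ℝ := (S.card : ℝ) with hR
  have hR0 : 0 ≤ R := Nat.cast_nonneg _
  have hN0 : (0 : ℝ) ≤ N := Nat.cast_nonneg _
  have h2 : ∑ q ∈ S, ∑ q' ∈ S, G q q' ≤ R * (8 * N * B ^ (k + 1) + R * (B ^ k * (4 * Q * L))) := by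
    calc ∑ q ∈ S, ∑ q' ∈ S, G q q' ≤ ∑ _q ∈ S, (8 * N * B ^ (k + 1) + R * (B ^ k * (4 * Q * L))) := by
          apply Finset.sum_le_sum
          intro q hq
          obtain ⟨hs, hQ1, hQ2, _⟩ := hS q hq
          have h3 := gcd_sum q Q (by omega) S (by
            intro q' hq'
            obtain ⟨_, hQ1', hQ2', _⟩ := hS q' hq'
            rw [Finset.mem_Ioc]
            omega)
          have h4 : (q.divisors.card : ℝ) ≤ B := hBn q (by omega) (by nlinarith)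
          rw [hG]
          simp only
          rw [← Finset.mul_sum, Finset.sum_add_distrib, Finset.sum_const, nsmul_eq_mul, ← Finset.sum_div,
            ← Finset.mul_sum, mul_add]
          apply add_le_add
          · have h5 : 2 * (N : ℝ) * (∑ q' ∈ S, (Nat.gcd q q' : ℝ)) / Q ≤ 2 * N * (4 * Q * B) / Q := by
              apply div_le_div_of_nonneg_right _ hQ0.le
              apply mul_le_mul_of_nonneg_left _ (by positivity)
              exact h3.trans (mul_le_mul_of_nonneg_left h4 (by positivity))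
            have h6 : 2 * (N : ℝ) * (4 * Q * B) / Q = 8 * N * B := by field_simp; ring
            rw [h6] at h5
            calc B ^ k * (2 * (N : ℝ) * (∑ q' ∈ S, (Nat.gcd q q' : ℝ)) / Q) ≤ B ^ k * (8 * N * B) :=
                  mul_le_mul_of_nonneg_left h5 (by positivity)
              _ = _ := by ring
          · apply le_of_eq
            ring
      _ = _ := by rw [Finset.sum_const, nsmul_eq_mul]
  have h3 := h1.trans (mul_le_mul_of_nonneg_left h2 hN0)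
  have hQp : (Q : ℝ) ^ (1 + ε) = Q * ((Q : ℝ) ^ (ε / 2) * (Q : ℝ) ^ (ε / 2)) := by
    rw [← Real.rpow_add hQ0, Real.rpow_add hQ0, Real.rpow_one]
    congr 2
    ring
  have h4 : 2 * N * (B ^ k * (4 * Q * L)) ≤ V ^ 2 := by
    refine le_trans ?_ hV2
    rw [hQp]
    have hQe : 0 ≤ (Q : ℝ) ^ (ε / 2) := by positivity
    calc 2 * N * (B ^ k * (4 * Q * L)) ≤ 2 * N * ((K * (Q : ℝ) ^ (ε / 2)) * (4 * Q * (L0 * (Q : ℝ) ^ (ε / 2)))) := by
          gcongr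
      _ = 8 * K * L0 * (N * (Q * ((Q : ℝ) ^ (ε / 2) * (Q : ℝ) ^ (ε / 2)))) := by ring
      _ ≤ (1 + 16 * K + 8 * K * L0) * (N * (Q * ((Q : ℝ) ^ (ε / 2) * (Q : ℝ) ^ (ε / 2)))) := by
          apply mul_le_mul_of_nonneg_right _ (by positivity)
          linarith
      _ = _ := by ring
  have h5 : R * V ^ 2 ≤ 16 * (N : ℝ) ^ 2 * B ^ (k + 1) := by
    rcases hR0.eq_or_lt with h0 | h0
    · rw [← h0]
      have : 0 ≤ B ^ (k + 1) := by positivity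
      have : 0 ≤ (N : ℝ) ^ 2 := by positivity
      nlinarith
    · have h6 : R * (R * V ^ 2) ≤ R * (16 * (N : ℝ) ^ 2 * B ^ (k + 1)) := by
        have h7 : R ^ 2 * (2 * N * (B ^ k * (4 * Q * L))) ≤ R ^ 2 * V ^ 2 :=
          mul_le_mul_of_nonneg_left h4 (sq_nonneg R)
        nlinarith
      exact le_of_mul_le_mul_left h6 h0
  rw [le_div_iff₀ (by positivity)]
  refine h5.trans ?_
  rw [hBk]
  have h6 : (Q : ℝ) ^ (ε / 2) ≤ (Q : ℝ) ^ ε := Real.rpow_le_rpow_of_exponent_le hQ' (by linarith)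
  calc 16 * (N : ℝ) ^ 2 * (K * (Q : ℝ) ^ (ε / 2)) ≤ 16 * (N : ℝ) ^ 2 * (K * (Q : ℝ) ^ ε) := by gcongr
    _ = 16 * K * ((Q : ℝ) ^ ε * (N : ℝ) ^ 2) := by ring
    _ ≤ (1 + 16 * K + 8 * K * L0) * ((Q : ℝ) ^ ε * (N : ℝ) ^ 2) := by
        apply mul_le_mul_of_nonneg_right _ (by positivity)
        have : 0 ≤ 8 * K * L0 := by positivity
        linarith
    _ = _ := by ring

end Pool.Agent.Helper68K9.MWQ
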