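import Pool.Agent.Helper68K9.MWQ.Sq3

/-! # large values over all moduli -/

set_option autoImplicit false

namespace Pool.Agent.Helper68K9.MWQ

open Finset Real Polynomial
open Pool.Agent.Y933.KD
open Pool.Agent.Y951.MW

/-- the squarefree part prime to the rest -/
theorem decomp (q D : ℕ) (hq : 1 ≤ q) (hD : ∀ d : ℕ, d ^ 2 ∣ q → d ≤ D) :
    ∃ w r : ℕ, q = w * r ∧ w.Coprime r ∧ Squarefree r ∧ 1 ≤ w ∧ w ≤ D ^ 3 := by
  obtain ⟨a, b, hab, ha⟩ := Nat.sq_mul_squarefree q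
  have hb0 : 0 < b := by
    rcases Nat.eq_zero_or_pos b with h | h
    · subst h; simp at hab; omega
    · exact h
  have ha0 : a ≠ 0 := ha.ne_zero
  have hbD : b ≤ D := hD b (Dvd.intro a hab)
  set g : ℕ := Nat.gcd a b with hg
  have hg0 : 0 < g := Nat.gcd_pos_of_pos_right _ hb0
  obtain ⟨r, hr⟩ : g ∣ a := Nat.gcd_dvd_left a b
  have hsq := ha
  rw [hr] at hsq
  obtain ⟨hgr, _, hsr⟩ := Nat.squarefree_mul_iff.mp hsq
  have hgb : g ≤ b := Nat.le_of_dvd hb0 (Nat.gcd_dvd_right a b)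
  have hbr : b.Coprime r := by
    have h1 : Nat.gcd b r ∣ g := Nat.dvd_gcd ((Nat.gcd_dvd_right b r).trans (Dvd.intro_left g hr.symm))
      (Nat.gcd_dvd_left b r)
    have h2 : Nat.gcd b r ∣ Nat.gcd g r := Nat.dvd_gcd h1 (Nat.gcd_dvd_right b r)
    rw [hgr.gcd_eq_one] at h2
    exact Nat.dvd_one.mp h2
  refine ⟨b ^ 2 * g, r, ?_, ?_, hsr, ?_, ?_⟩
  · rw [← hab, mul_assoc, ← hr]
  · exact Nat.Coprime.mul_left (Nat.Coprime.pow_left 2 hbr) hgr
  · exact Nat.mul_pos (Nat.pow_pos hb0) hg0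
  · calc b ^ 2 * g ≤ D ^ 2 * D := Nat.mul_le_mul (Nat.pow_le_pow_left hbD 2) (hgb.trans hbD)
      _ = D ^ 3 := by ring

/-- restriction to a residue class -/
theorem classes {k q w r : ℕ} (hqwr : q = w * r) (hco : w.Coprime r) (hw : 1 ≤ w) (hr0 : r ≠ 0) (f : ℤ[X])
    (hf : NL k q f) (c : ℕ → ℂ) (ξ V : ℝ) (u v : ℕ)
    (hV : V ≤ ‖∑ n ∈ Finset.Ioc u v, c n * e (((f.eval (n : ℤ) : ℤ) : ℝ) / q + ξ * n)‖) :
    ∃ (s : ℕ) (g : ℤ[X]), s < w ∧ NL k r g ∧ V / w ≤ ‖∑ n ∈ Finset.Ioc u v, (if n % w = s then c n else 0) *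
      e (((g.eval (n : ℤ) : ℤ) : ℝ) / r + ξ * n)‖ := by
  classical
  have hw0 : (w : ℝ) ≠ 0 := by
    have : w ≠ 0 := by omega
    exact_mod_cast this
  have hwp : (0 : ℝ) < w := by exact_mod_cast hw
  have hr0R : (r : ℝ) ≠ 0 := by exact_mod_cast hr0
  obtain ⟨x, y, hxy⟩ := (Nat.isCoprime_iff_coprime.2 hco : IsCoprime (w : ℤ) (r : ℤ))
  have hxyR : (x : ℝ) * w + y * r = 1 := by exact_mod_cast hxy
  have hg : NL k r (C x * f) := by
    apply NL_mul hf r (Dvd.intro_left w hqwr.symm) x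
    intro p hp hpr h2
    have h4 : (p : ℤ) ∣ x * w + y * r := dvd_add (h2.mul_right _) ((Int.natCast_dvd_natCast.mpr hpr).mul_left _)
    rw [hxy] at h4
    exact hp.one_lt.ne' (by exact_mod_cast Int.eq_one_of_dvd_one (by positivity) h4)
  by_contra hcon
  push Not at hcon
  have h1 : ∀ s ∈ range w, ‖∑ n ∈ (Finset.Ioc u v).filter (fun n => n % w = s),
      c n * e (((f.eval (n : ℤ) : ℤ) : ℝ) / q + ξ * n)‖ < V / w := by
    intro s hs
    refine lt_of_le_of_lt (le_of_eq ?_) (hcon s (C x * f) (Finset.mem_range.mp hs) hg)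
    have h2 : ∑ n ∈ (Finset.Ioc u v).filter (fun n => n % w = s),
        c n * e (((f.eval (n : ℤ) : ℤ) : ℝ) / q + ξ * n) = e (y * ((f.eval (s : ℤ) : ℤ) : ℝ) / w) *
        ∑ n ∈ Finset.Ioc u v, (if n % w = s then c n else 0) *
          e ((((C x * f).eval (n : ℤ) : ℤ) : ℝ) / r + ξ * n) := by
      rw [Finset.mul_sum, Finset.sum_filter]
      apply Finset.sum_congr rfl
      intro n _
      split_ifs with hns
      · have h3 : (w : ℤ) ∣ f.eval (n : ℤ) - f.eval (s : ℤ) := by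
          have h4 : (n : ℤ) - s ∣ f.eval (n : ℤ) - f.eval (s : ℤ) := f.sub_dvd_eval_sub (n : ℤ) (s : ℤ)
          have h5 : (w : ℤ) ∣ (n : ℤ) - s := by
            have h6 := Nat.mod_add_div n w
            rw [hns] at h6
            have h6' : (s : ℤ) + (w : ℤ) * ((n / w : ℕ) : ℤ) = (n : ℤ) := by exact_mod_cast h6
            exact ⟨((n / w : ℕ) : ℤ), by linarith⟩
          exact h5.trans h4
        obtain ⟨z, hz⟩ := h3
        have h7 : ((f.eval (n : ℤ) : ℤ) : ℝ) = ((f.eval (s : ℤ) : ℤ) : ℝ) + w * z := by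
          have : (f.eval (n : ℤ) : ℤ) = f.eval (s : ℤ) + w * z := by linarith
          rw [this]; push_cast; ring
        have h8 : ((f.eval (n : ℤ) : ℤ) : ℝ) / q + ξ * n = y * ((f.eval (s : ℤ) : ℤ) : ℝ) / w +
            ((((C x * f).eval (n : ℤ) : ℤ) : ℝ) / r + ξ * n) + ((y * z : ℤ) : ℝ) := by
          rw [eval_mul, eval_C, hqwr]
          push_cast
          have h9 : ((f.eval (n : ℤ) : ℤ) : ℝ) / ((w : ℝ) * r) =
              x * ((f.eval (n : ℤ) : ℤ) : ℝ) / r + y * ((f.eval (n : ℤ) : ℤ) : ℝ) / w := by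
            field_simp
            linear_combination (-((f.eval (n : ℤ) : ℤ) : ℝ)) * hxyR
          have h10 : y * ((f.eval (n : ℤ) : ℤ) : ℝ) / w = y * ((f.eval (s : ℤ) : ℤ) : ℝ) / w + y * z := by
            rw [h7]; field_simp
          rw [h9, h10]
          ring
        rw [h8, e_add_int, e_add]
        ring
      · rw [zero_mul, mul_zero]
    rw [h2, norm_mul, norm_e, one_mul]
  have h3 : ‖∑ n ∈ Finset.Ioc u v, c n * e (((f.eval (n : ℤ) : ℤ) : ℝ) / q + ξ * n)‖ < V := by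
    rw [← Finset.sum_fiberwise_of_maps_to (s := Finset.Ioc u v) (t := range w) (g := fun n => n % w)
      (fun n _ => Finset.mem_range.mpr (Nat.mod_lt n (by omega)))]
    refine (norm_sum_le _ _).trans_lt ?_
    calc ∑ s ∈ range w, ‖∑ n ∈ (Finset.Ioc u v).filter (fun n => n % w = s),
        c n * e (((f.eval (n : ℤ) : ℤ) : ℝ) / q + ξ * n)‖ < ∑ _s ∈ range w, V / w :=
          Finset.sum_lt_sum_of_nonempty (Finset.nonempty_range_iff.mpr (by omega)) h1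
      _ = V := by rw [Finset.sum_const, Finset.card_range, nsmul_eq_mul]; field_simp
  linarith

/-- **large values over all moduli without large square divisors** -/
theorem allq (k : ℕ) (hk : 2 ≤ k) (ε : ℝ) (hε : 0 < ε) : ∃ C : ℝ, 1 ≤ C ∧ ∀ Q N D : ℕ, 1 ≤ Q → 1 ≤ D →
    ∀ c : ℕ → ℂ, (∀ n, ‖c n‖ ≤ 1) → ∀ V : ℝ, 0 < V → C * (D : ℝ) ^ 6 * N * (Q : ℝ) ^ (1 + ε) ≤ V ^ 2 →
    ∀ S : Finset ℕ, (∀ q ∈ S, (∀ d : ℕ, d ^ 2 ∣ q → d ≤ D) ∧ Q < q ∧ q ≤ 2 * Q ∧ ∃ f : ℤ[X], NL k q f ∧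
      ∃ (ξ : ℝ) (u v : ℕ), v ≤ N ∧
        V ≤ ‖∑ n ∈ Finset.Ioc u v, c n * e (((f.eval (n : ℤ) : ℤ) : ℝ) / q + ξ * n)‖) →
    (S.card : ℝ) ≤ C * (D : ℝ) ^ 12 * (Q : ℝ) ^ ε * (N : ℝ) ^ 2 / V ^ 2 := by
  classical
  obtain ⟨C, hC1, h⟩ := sqf k hk ε hε
  have h2e : (1 : ℝ) ≤ 2 ^ (1 + ε) := Real.one_le_rpow (by norm_num) (by linarith)
  refine ⟨C * 2 ^ (1 + ε), by nlinarith, ?_⟩
  intro Q N D hQ hD c hc V hV hV2 S hS
  have hQ' : (1 : ℝ) ≤ Q := by exact_mod_cast hQ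
  have hQ0 : (0 : ℝ) < Q := by linarith
  have hD' : (1 : ℝ) ≤ D := by exact_mod_cast hD
  have hD0 : (0 : ℝ) < D := by linarith
  have hN0 : (0 : ℝ) ≤ N := Nat.cast_nonneg _
  have hdec : ∀ q ∈ S, ∃ w r s : ℕ, q = w * r ∧ Squarefree r ∧ 1 ≤ w ∧ w ≤ D ^ 3 ∧ s < w ∧ ∃ g : ℤ[X], NL k r g ∧
      ∃ (ξ : ℝ) (u v : ℕ), v ≤ N ∧ V / (D : ℝ) ^ 3 ≤ ‖∑ n ∈ Finset.Ioc u v, (if n % w = s then c n else 0) *
      e (((g.eval (n : ℤ) : ℤ) : ℝ) / r + ξ * n)‖ := by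
    intro q hq
    obtain ⟨hd, hQq, hqQ, f, hf, ξ, u, v, hv, hVf⟩ := hS q hq
    obtain ⟨w, r, hqwr, hco, hsr, hw, hwD⟩ := decomp q D (by omega) hd
    obtain ⟨s, g, hs, hg, hVg⟩ := classes hqwr hco hw hsr.ne_zero f hf c ξ V u v hVf
    refine ⟨w, r, s, hqwr, hsr, hw, hwD, hs, g, hg, ξ, u, v, hv, le_trans ?_ hVg⟩
    apply div_le_div_of_nonneg_left hV.le (by exact_mod_cast hw)
    exact_mod_cast hwD
  choose! w r s hdec2 using hdec
  set T : Finset (ℕ × ℕ) := (Icc 1 (D ^ 3)) ×ˢ (range (D ^ 3)) with hT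
  have hmap : ∀ q ∈ S, (w q, s q) ∈ T := by
    intro q hq
    obtain ⟨_, _, h3, h4, h5, _⟩ := hdec2 q hq
    rw [hT, Finset.mem_product, Finset.mem_Icc, Finset.mem_range]
    exact ⟨⟨h3, h4⟩, by simp only; omega⟩
  have hcard : (S.card : ℝ) = ∑ t ∈ T, ((S.filter (fun q => (w q, s q) = t)).card : ℝ) := by
    have := Finset.card_eq_sum_card_fiberwise (s := S) (t := T) (f := fun q => (w q, s q))
      (fun q hq => hmap q hq)
    rw [this]
    push_cast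
    rfl
  have hpart : ∀ t ∈ T, ((S.filter (fun q => (w q, s q) = t)).card : ℝ) ≤
      C * 2 ^ (1 + ε) * (D : ℝ) ^ 6 * (Q : ℝ) ^ ε * (N : ℝ) ^ 2 / V ^ 2 := by
    rintro ⟨w0, s0⟩ ht
    rw [hT, Finset.mem_product, Finset.mem_Icc] at ht
    obtain ⟨⟨hw1, hw2⟩, _⟩ := ht
    simp only at hw1 hw2
    set R : Finset ℕ := (S.filter (fun q => (w q, s q) = (w0, s0))).image r with hR
    have hRcard : (S.filter (fun q => (w q, s q) = (w0, s0))).card = R.card := by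
      rw [hR, Finset.card_image_of_injOn]
      intro q hq q' hq' hrr
      rw [Finset.mem_coe, Finset.mem_filter] at hq hq'
      have e1 := (hdec2 q hq.1).1
      have e2 := (hdec2 q' hq'.1).1
      have e3 := (Prod.mk.injEq _ _ _ _).mp hq.2
      have e4 := (Prod.mk.injEq _ _ _ _).mp hq'.2
      rw [e1, e2, e3.1, e4.1, hrr]
    rw [hRcard]
    set Q1 : ℕ := Q / w0 + 1 with hQ1
    have hQ11 : 1 ≤ Q1 := Nat.succ_le_succ (Nat.zero_le _)
    have hQ1Q : (Q1 : ℝ) ≤ 2 * Q := by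
      have : Q1 ≤ 2 * Q := by
        have := Nat.div_le_self Q w0
        omega
      exact_mod_cast this
    have hQ10 : (0 : ℝ) < Q1 := by exact_mod_cast hQ11
    have hp1 : (Q1 : ℝ) ^ (1 + ε) ≤ 2 ^ (1 + ε) * (Q : ℝ) ^ (1 + ε) := by
      rw [← Real.mul_rpow (by norm_num) hQ0.le]
      exact Real.rpow_le_rpow hQ10.le hQ1Q (by linarith)
    have hp2 : (Q1 : ℝ) ^ ε ≤ 2 ^ (1 + ε) * (Q : ℝ) ^ ε := by
      calc (Q1 : ℝ) ^ ε ≤ (2 * Q) ^ ε := Real.rpow_le_rpow hQ10.le hQ1Q hε.le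
        _ = 2 ^ ε * (Q : ℝ) ^ ε := Real.mul_rpow (by norm_num) hQ0.le
        _ ≤ 2 ^ (1 + ε) * (Q : ℝ) ^ ε := by
            apply mul_le_mul_of_nonneg_right _ (by positivity)
            exact Real.rpow_le_rpow_of_exponent_le (by norm_num) (by linarith)
    have h3 := h Q1 N hQ11 (fun n => if n % w0 = s0 then c n else 0) (by
      intro n
      split_ifs
      · exact hc n
      · rw [norm_zero]; exact zero_le_one) (V / (D : ℝ) ^ 3) (by positivity) (by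
        rw [div_pow, le_div_iff₀ (by positivity)]
        refine le_trans ?_ hV2
        calc C * N * (Q1 : ℝ) ^ (1 + ε) * ((D : ℝ) ^ 3) ^ 2
            ≤ C * N * (2 ^ (1 + ε) * (Q : ℝ) ^ (1 + ε)) * ((D : ℝ) ^ 3) ^ 2 := by gcongr
          _ = _ := by ring) R (by
        intro r0 hr0
        rw [hR, Finset.mem_image] at hr0
        obtain ⟨q, hq, hqr⟩ := hr0
        rw [Finset.mem_filter] at hq
        obtain ⟨hqS, hqt⟩ := hq
        have e3 := (Prod.mk.injEq _ _ _ _).mp hqt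
        obtain ⟨e1, e2, _, _, _, g, hg, hξ⟩ := hdec2 q hqS
        rw [e3.1, hqr] at e1
        rw [hqr] at e2 hg
        rw [e3.1, e3.2, hqr] at hξ
        obtain ⟨_, hQq, hqQ, _⟩ := hS q hqS
        refine ⟨e2, ?_, ?_, g, hg, hξ⟩
        · rw [hQ1]
          have : Q / w0 < r0 := by
            rw [Nat.div_lt_iff_lt_mul (by omega)]
            rw [mul_comm, ← e1]
            exact hQq
          omega
        · rw [hQ1]
          have h4 : r0 ≤ 2 * Q / w0 := by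
            rw [Nat.le_div_iff_mul_le (by omega), mul_comm, ← e1]
            exact hqQ
          have h5 : 2 * Q / w0 ≤ 2 * (Q / w0) + 1 := by
            have h6 := Nat.div_add_mod Q w0
            have h7 := Nat.mod_lt Q (show w0 > 0 by omega)
            rw [← Nat.lt_succ_iff, Nat.div_lt_iff_lt_mul (by omega)]
            calc 2 * Q = 2 * (w0 * (Q / w0) + Q % w0) := by rw [h6]
              _ < 2 * (w0 * (Q / w0) + w0) := by omega
              _ = (2 * (Q / w0) + 1).succ * w0 := by rw [Nat.succ_eq_add_one]; ring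
          omega)
    refine h3.trans ?_
    rw [div_pow, div_div_eq_mul_div]
    apply div_le_div_of_nonneg_right _ (by positivity)
    calc C * (Q1 : ℝ) ^ ε * (N : ℝ) ^ 2 * ((D : ℝ) ^ 3) ^ 2
        ≤ C * (2 ^ (1 + ε) * (Q : ℝ) ^ ε) * (N : ℝ) ^ 2 * ((D : ℝ) ^ 3) ^ 2 := by gcongr
      _ = _ := by ring
  rw [hcard]
  refine (Finset.sum_le_sum hpart).trans (le_of_eq ?_)
  rw [Finset.sum_const, hT, Finset.card_product, Nat.card_Icc, Finset.card_range, nsmul_eq_mul]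
  push_cast
  ring

/-- integers with a large square divisor -/
theorem sqdiv (Q D : ℕ) (hD : 1 ≤ D) (S : Finset ℕ)
    (hS : ∀ q ∈ S, Q < q ∧ q ≤ 2 * Q ∧ ∃ d : ℕ, D < d ∧ d ^ 2 ∣ q) : (S.card : ℝ) ≤ 2 * (Q : ℝ) / D := by
  classical
  have hD0 : (0 : ℝ) < D := by exact_mod_cast hD
  rcases Nat.lt_or_ge (2 * Q) D with hlt | hge
  · have h0 : S = ∅ := by
      rw [Finset.eq_empty_iff_forall_notMem]
      intro q hq
      obtain ⟨h1, h2, d, h3, h4⟩ := hS q hq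
      have h5 := Nat.le_of_dvd (by omega) h4
      have h6 : d ≤ d ^ 2 := Nat.le_self_pow (by norm_num) d
      omega
    rw [h0, Finset.card_empty]
    push_cast
    positivity
  have hsub : S ⊆ (Ioc D (2 * Q)).biUnion (fun d => (Ioc 0 (2 * Q)).filter (fun q => d ^ 2 ∣ q)) := by
    intro q hq
    obtain ⟨h1, h2, d, h3, h4⟩ := hS q hq
    have h5 := Nat.le_of_dvd (by omega) h4
    have h6 : d ≤ d ^ 2 := Nat.le_self_pow (by norm_num) d
    rw [Finset.mem_biUnion]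
    refine ⟨d, Finset.mem_Ioc.mpr ⟨h3, by omega⟩, ?_⟩
    rw [Finset.mem_filter, Finset.mem_Ioc]
    exact ⟨⟨by omega, h2⟩, h4⟩
  have h1 : S.card ≤ ∑ d ∈ Ioc D (2 * Q), 2 * Q / d ^ 2 := by
    refine (Finset.card_le_card hsub).trans (Finset.card_biUnion_le.trans ?_)
    apply Finset.sum_le_sum
    intro d _
    rw [Nat.Ioc_filter_dvd_card_eq_div]
  have h2 : ((∑ d ∈ Ioc D (2 * Q), 2 * Q / d ^ 2 : ℕ) : ℝ) ≤ ∑ d ∈ Ioc D (2 * Q), 2 * (Q : ℝ) * ((d : ℝ) ^ 2)⁻¹ := by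
    push_cast
    apply Finset.sum_le_sum
    intro d _
    refine Nat.cast_div_le.trans (le_of_eq ?_)
    push_cast
    rw [div_eq_mul_inv]
  have h3 := sum_Ioc_inv_sq_le_sub (α := ℝ) (show D ≠ 0 by omega) hge
  have h4 : (0 : ℝ) ≤ (((2 * Q : ℕ) : ℝ))⁻¹ := by positivity
  calc (S.card : ℝ)
      ≤ ((∑ d ∈ Ioc D (2 * Q), 2 * Q / d ^ 2 : ℕ) : ℝ) := by exact_mod_cast h1
    _ ≤ ∑ d ∈ Ioc D (2 * Q), 2 * (Q : ℝ) * ((d : ℝ) ^ 2)⁻¹ := h2
    _ = 2 * (Q : ℝ) * ∑ d ∈ Ioc D (2 * Q), ((d : ℝ) ^ 2)⁻¹ := by rw [Finset.mul_sum]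
    _ ≤ 2 * (Q : ℝ) * (D : ℝ)⁻¹ := by
        apply mul_le_mul_of_nonneg_left _ (by positivity)
        linarith
    _ = 2 * (Q : ℝ) / D := by rw [div_eq_mul_inv]

end Pool.Agent.Helper68K9.MWQ
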