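import Pool.Agent.Helper68K9.MWQ.Sq4

/-! # all lengths at once -/

set_option autoImplicit false

namespace Pool.Agent.Helper68K9.MWQ

open Finset Real Polynomial
open Pool.Agent.Y933.KD
open Pool.Agent.Y951.MW

/-- the modulus `q` is bad -/
def BadQ (c : ℕ → ℂ) (k : ℕ) (η ε : ℝ) (q : ℕ) : Prop :=
  ∃ N : ℕ, (2 * (q : ℝ)) ^ (1 + 2 * η) ≤ N ∧ ∃ f : ℤ[X], NL k q f ∧ ∃ (ξ : ℝ) (u v : ℕ), v ≤ N ∧
    (N : ℝ) ^ (1 + ε) / (q : ℝ) ^ η <
      ‖∑ n ∈ Finset.Ioc u v, c n * e (((f.eval (n : ℤ) : ℤ) : ℝ) / q + ξ * n)‖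

theorem geo (γ : ℝ) (hγ : 0 < γ) (Q : ℕ) (hQ : 1 ≤ Q) (I : Finset ℕ) (hI : ∀ i ∈ I, Q ≤ 2 ^ i) :
    ∑ i ∈ I, ((2 : ℝ) ^ i) ^ (-γ) ≤ (Q : ℝ) ^ (-γ) / (1 - (2 : ℝ) ^ (-γ)) := by
  have hr0 : 0 < (2 : ℝ) ^ (-γ) := by positivity
  have hr1 : (2 : ℝ) ^ (-γ) < 1 := Real.rpow_lt_one_of_one_lt_of_neg (by norm_num) (by linarith)
  set r : ℝ := (2 : ℝ) ^ (-γ) with hr
  have hpow : ∀ i : ℕ, ((2 : ℝ) ^ i) ^ (-γ) = r ^ i := by
    intro i
    rw [hr, ← Real.rpow_natCast, ← Real.rpow_natCast, ← Real.rpow_mul (by norm_num), ← Real.rpow_mul (by norm_num)]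
    congr 1
    ring
  set i0 : ℕ := Nat.clog 2 Q with hi0
  have h1 : I ⊆ (range (I.sup id + 1)).image (fun j => i0 + j) := by
    intro i hi
    rw [Finset.mem_image]
    have h2 : i0 ≤ i := (Nat.clog_le_iff_le_pow (by norm_num)).mpr (hI i hi)
    have h3 : i ≤ I.sup id := Finset.le_sup (f := id) hi
    exact ⟨i - i0, Finset.mem_range.mpr (by omega), by omega⟩
  calc ∑ i ∈ I, ((2 : ℝ) ^ i) ^ (-γ) = ∑ i ∈ I, r ^ i := Finset.sum_congr rfl (fun i _ => hpow i)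
    _ ≤ ∑ i ∈ (range (I.sup id + 1)).image (fun j => i0 + j), r ^ i :=
        Finset.sum_le_sum_of_subset_of_nonneg h1 (fun i _ _ => by positivity)
    _ = ∑ j ∈ range (I.sup id + 1), r ^ (i0 + j) := by
        rw [Finset.sum_image]
        intro x _ y _ h
        simpa using h
    _ = r ^ i0 * ∑ j ∈ range (I.sup id + 1), r ^ j := by
        rw [Finset.mul_sum]
        apply Finset.sum_congr rfl
        intro j _
        rw [pow_add]
    _ ≤ (Q : ℝ) ^ (-γ) * (1 - r)⁻¹ := by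
        apply mul_le_mul _ _ (by positivity) (by positivity)
        · rw [← hpow]
          apply Real.rpow_le_rpow_of_nonpos (by exact_mod_cast hQ) _ (by linarith)
          exact_mod_cast Nat.le_pow_clog (by norm_num) Q
        · have := (summable_geometric_of_lt_one hr0.le hr1).sum_le_tsum (range (I.sup id + 1))
            (fun i _ => by positivity)
          rwa [tsum_geometric_of_lt_one hr0.le hr1] at this
    _ = _ := by rw [div_eq_mul_inv]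

/-- all scales at once, for a family of moduli with a large-values bound -/
theorem scalesQ (k : ℕ) (η ε : ℝ) (hη : 0 ≤ η) (hε : 0 < ε) (c : ℕ → ℂ)
    (A E P0 : ℝ) (hP0 : 1 ≤ P0) (Q : ℕ) (hQ : 1 ≤ Q) (hQP : P0 ≤ Q) (hA : 0 ≤ A) (hE : 0 ≤ E)
    (hAP : ∀ P : ℝ, (Q : ℝ) ≤ P → 2 * A ≤ P ^ (2 * ε))
    (S : Finset ℕ) (hS : ∀ q ∈ S, Q < q ∧ q ≤ 2 * Q ∧ BadQ c k η ε q)
    (hL : ∀ (N : ℕ) (V : ℝ), 0 < V → A * N * Q ≤ V ^ 2 → ∀ S' : Finset ℕ, S' ⊆ S →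
      (∀ q ∈ S', ∃ f : ℤ[X], NL k q f ∧ ∃ (ξ : ℝ) (u v : ℕ), v ≤ N ∧
        V ≤ ‖∑ n ∈ Finset.Ioc u v, c n * e (((f.eval (n : ℤ) : ℤ) : ℝ) / q + ξ * n)‖) →
      (S'.card : ℝ) ≤ E * (N : ℝ) ^ 2 / V ^ 2) :
    (S.card : ℝ) ≤ 4 * E * (2 * (Q : ℝ)) ^ (2 * η) * ((Q : ℝ) ^ (-(2 * ε)) / (1 - (2 : ℝ) ^ (-(2 * ε)))) := by
  classical
  have hQ' : (1 : ℝ) ≤ Q := by exact_mod_cast hQ
  have hQ0 : (0 : ℝ) < Q := by linarith
  choose! N hN f hf ξ u v hv hbig using fun q (hq : q ∈ S) => (hS q hq).2.2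
  set sc : ℕ → ℕ := fun q => Nat.log 2 (N q) with hsc
  have hN1 : ∀ q ∈ S, (2 * (Q : ℝ)) ^ (1 + 2 * η) ≤ N q := by
    intro q hq
    refine le_trans ?_ (hN q hq)
    apply Real.rpow_le_rpow (by positivity) _ (by linarith)
    have : (Q : ℝ) ≤ q := by exact_mod_cast (hS q hq).1.le
    linarith
  have hNQ : ∀ q ∈ S, 2 * Q ≤ N q := by
    intro q hq
    have h1 : 2 * (Q : ℝ) ≤ (2 * (Q : ℝ)) ^ (1 + 2 * η) := by
      calc 2 * (Q : ℝ) = (2 * (Q : ℝ)) ^ (1 : ℝ) := (Real.rpow_one _).symm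
        _ ≤ _ := Real.rpow_le_rpow_of_exponent_le (by linarith) (by linarith)
    exact_mod_cast h1.trans (hN1 q hq)
  have hlo : ∀ q ∈ S, 2 ^ sc q ≤ N q := fun q hq => Nat.pow_log_le_self 2 (by have := hNQ q hq; omega)
  have hhi : ∀ q ∈ S, N q < 2 * 2 ^ sc q := by
    intro q _
    have := Nat.lt_pow_succ_log_self (b := 2) (by norm_num) (N q)
    rw [Nat.succ_eq_add_one, pow_succ] at this
    rw [hsc]
    simp only
    omega
  set I : Finset ℕ := S.image sc with hI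
  have hIQ : ∀ i ∈ I, Q ≤ 2 ^ i := by
    intro i hi
    rw [hI, Finset.mem_image] at hi
    obtain ⟨q, hq, rfl⟩ := hi
    have := hhi q hq
    have := hNQ q hq
    omega
  have hcard : (S.card : ℝ) = ∑ i ∈ I, ((S.filter (fun q => sc q = i)).card : ℝ) := by
    have := Finset.card_eq_sum_card_fiberwise (s := S) (t := I) (f := sc)
      (fun q hq => Finset.mem_image_of_mem sc hq)
    rw [this]
    push_cast
    rfl
  have hpart : ∀ i ∈ I, ((S.filter (fun q => sc q = i)).card : ℝ) ≤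
      4 * E * (2 * (Q : ℝ)) ^ (2 * η) * ((2 : ℝ) ^ i) ^ (-(2 * ε)) := by
    intro i hi
    have hP : (Q : ℝ) ≤ (2 : ℝ) ^ i := by exact_mod_cast hIQ i hi
    have hP1 : (0 : ℝ) < (2 : ℝ) ^ i := by positivity
    set P : ℝ := (2 : ℝ) ^ i with hPdef
    set V : ℝ := P ^ (1 + ε) / (2 * (Q : ℝ)) ^ η with hV
    have hV0 : 0 < V := by positivity
    have hV2 : V ^ 2 = P ^ 2 * P ^ (2 * ε) / (2 * (Q : ℝ)) ^ (2 * η) := by
      have e1 : (P ^ (1 + ε)) ^ 2 = P ^ 2 * P ^ (2 * ε) := by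
        rw [← Real.rpow_natCast, ← Real.rpow_mul hP1.le, ← Real.rpow_natCast P 2, ← Real.rpow_add hP1]
        congr 1
        push_cast; ring
      have e2 : ((2 * (Q : ℝ)) ^ η) ^ 2 = (2 * (Q : ℝ)) ^ (2 * η) := by
        rw [← Real.rpow_natCast, ← Real.rpow_mul (by positivity)]
        congr 1
        push_cast; ring
      rw [hV, div_pow, e1, e2]
    obtain ⟨q1, hq1, hq1i⟩ := Finset.mem_image.mp hi
    have hbigP : (2 * (Q : ℝ)) ^ (1 + 2 * η) ≤ 2 * P := by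
      have h1 : (N q1 : ℝ) ≤ 2 * P := by
        have := (hhi q1 hq1).le
        rw [hq1i] at this
        rw [hPdef]
        exact_mod_cast this
      exact (hN1 q1 hq1).trans h1
    have hcond : A * ((2 * 2 ^ i : ℕ) : ℝ) * Q ≤ V ^ 2 := by
      have h1 : ((2 * 2 ^ i : ℕ) : ℝ) = 2 * P := by rw [hPdef]; push_cast; ring
      rw [h1, hV2, le_div_iff₀ (by positivity)]
      have h2 : 2 * Q * (2 * (Q : ℝ)) ^ (2 * η) = (2 * (Q : ℝ)) ^ (1 + 2 * η) := by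
        rw [Real.rpow_add (by positivity), Real.rpow_one]
      calc A * (2 * P) * Q * (2 * (Q : ℝ)) ^ (2 * η) = A * P * (2 * Q * (2 * (Q : ℝ)) ^ (2 * η)) := by ring
        _ = A * P * (2 * (Q : ℝ)) ^ (1 + 2 * η) := by rw [h2]
        _ ≤ A * P * (2 * P) := mul_le_mul_of_nonneg_left hbigP (by positivity)
        _ = P ^ 2 * (2 * A) := by ring
        _ ≤ P ^ 2 * P ^ (2 * ε) := mul_le_mul_of_nonneg_left (hAP P hP) (by positivity)
    have h3 := hL (2 * 2 ^ i) V hV0 hcond (S.filter (fun q => sc q = i)) (Finset.filter_subset _ _) (by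
      intro q hq
      rw [Finset.mem_filter] at hq
      obtain ⟨hqS, hqi⟩ := hq
      refine ⟨f q, hf q hqS, ξ q, u q, v q, ?_, ?_⟩
      · have := (hhi q hqS).le
        rw [hqi] at this
        exact (hv q hqS).trans this
      · refine le_trans ?_ (hbig q hqS).le
        rw [hV]
        have hq0 : (0 : ℝ) < q := by
          have : 0 < q := by have := (hS q hqS).1; omega
          exact_mod_cast this
        have hq2 : (q : ℝ) ≤ 2 * Q := by exact_mod_cast (hS q hqS).2.1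
        have h4 : P ≤ N q := by
          have := hlo q hqS
          rw [hqi] at this
          rw [hPdef]
          exact_mod_cast this
        apply div_le_div₀ (by positivity) _ (by positivity) _
        · exact Real.rpow_le_rpow hP1.le h4 (by linarith)
        · exact Real.rpow_le_rpow hq0.le hq2 hη)
    refine h3.trans (le_of_eq ?_)
    have h1 : ((2 * 2 ^ i : ℕ) : ℝ) = 2 * P := by rw [hPdef]; push_cast; ring
    rw [h1, hV2, Real.rpow_neg hP1.le]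
    have : 0 < P ^ (2 * ε) := by positivity
    field_simp
    ring
  rw [hcard]
  refine (Finset.sum_le_sum hpart).trans ?_
  rw [← Finset.mul_sum]
  apply mul_le_mul_of_nonneg_left _ (by positivity)
  exact geo (2 * ε) (by positivity) Q hQ I hIQ

theorem card_le_Q (Q : ℕ) (S : Finset ℕ) (hS : ∀ q ∈ S, Q < q ∧ q ≤ 2 * Q) : (S.card : ℝ) ≤ Q := by
  have h1 : S ⊆ Ioc Q (2 * Q) := fun q hq => Finset.mem_Ioc.mpr (hS q hq)
  have h2 := Finset.card_le_card h1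
  rw [Nat.card_Ioc] at h2
  have : S.card ≤ Q := by omega
  exact_mod_cast this

/-- squarefree moduli -/
theorem sqf_exp (k : ℕ) (hk : 2 ≤ k) (η ε : ℝ) (hη : 0 ≤ η) (hη1 : η ≤ 1 / 2) (hε : 0 < ε) : ∃ C : ℝ, 0 < C ∧
    ∀ Q : ℕ, 1 ≤ Q → ∀ c : ℕ → ℂ, (∀ n, ‖c n‖ ≤ 1) → ∀ S : Finset ℕ,
    (∀ q ∈ S, Squarefree q ∧ Q < q ∧ q ≤ 2 * Q ∧ BadQ c k η ε q) → (S.card : ℝ) ≤ C * (Q : ℝ) ^ (2 * η - ε) := by
  obtain ⟨C0, hC0, h⟩ := sqf k hk ε hε
  set P0 : ℝ := (2 * C0) ^ (1 / ε) with hP0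
  have hP01 : 1 ≤ P0 := Real.one_le_rpow (by linarith) (by positivity)
  have hr1 : (2 : ℝ) ^ (-(2 * ε)) < 1 := Real.rpow_lt_one_of_one_lt_of_neg (by norm_num) (by linarith)
  have hr2 : 0 < 1 - (2 : ℝ) ^ (-(2 * ε)) := by linarith
  refine ⟨P0 ^ (1 + ε) + 8 * C0 / (1 - (2 : ℝ) ^ (-(2 * ε))), by positivity, ?_⟩
  intro Q hQ c hc S hS
  have hQ' : (1 : ℝ) ≤ Q := by exact_mod_cast hQ
  have hQ0 : (0 : ℝ) < Q := by linarith
  have hQe : 0 < (Q : ℝ) ^ (2 * η - ε) := by positivity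
  rcases lt_or_ge (Q : ℝ) P0 with hlt | hge
  · have h1 := card_le_Q Q S (fun q hq => ⟨(hS q hq).2.1, (hS q hq).2.2.1⟩)
    have h2 : (1 : ℝ) ≤ P0 ^ ε * (Q : ℝ) ^ (2 * η - ε) := by
      have h3 : (Q : ℝ) ^ (-ε) ≤ (Q : ℝ) ^ (2 * η - ε) := Real.rpow_le_rpow_of_exponent_le hQ' (by linarith)
      have h4 : (Q : ℝ) ^ ε ≤ P0 ^ ε := Real.rpow_le_rpow hQ0.le hlt.le hε.le
      have h5 : (Q : ℝ) ^ ε * (Q : ℝ) ^ (-ε) = 1 := by rw [← Real.rpow_add hQ0]; simp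
      calc (1 : ℝ) = (Q : ℝ) ^ ε * (Q : ℝ) ^ (-ε) := h5.symm
        _ ≤ P0 ^ ε * (Q : ℝ) ^ (2 * η - ε) := mul_le_mul h4 h3 (by positivity) (by positivity)
    have h6 : P0 ^ (1 + ε) = P0 * P0 ^ ε := by rw [Real.rpow_add (by linarith), Real.rpow_one]
    calc (S.card : ℝ) ≤ Q := h1
      _ ≤ P0 * 1 := by linarith
      _ ≤ P0 * (P0 ^ ε * (Q : ℝ) ^ (2 * η - ε)) := mul_le_mul_of_nonneg_left h2 (by linarith)
      _ = P0 ^ (1 + ε) * (Q : ℝ) ^ (2 * η - ε) := by rw [h6]; ring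
      _ ≤ _ := by
          apply mul_le_mul_of_nonneg_right _ hQe.le
          have : 0 ≤ 8 * C0 / (1 - (2 : ℝ) ^ (-(2 * ε))) := by positivity
          linarith
  · have h1 := scalesQ k η ε hη hε c (C0 * (Q : ℝ) ^ ε) (C0 * (Q : ℝ) ^ ε) P0 hP01 Q hQ hge (by positivity)
      (by positivity) (by
        intro P hP
        have hP0' : 0 < P := by linarith
        have h2 : (Q : ℝ) ^ ε ≤ P ^ ε := Real.rpow_le_rpow hQ0.le hP hε.le
        have h3 : 2 * C0 ≤ P ^ ε := by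
          have h4 : P0 ^ ε ≤ P ^ ε := Real.rpow_le_rpow (by linarith) (hge.trans hP) hε.le
          have h5 : P0 ^ ε = 2 * C0 := by
            rw [hP0, ← Real.rpow_mul (by linarith), one_div, inv_mul_cancel₀ hε.ne', Real.rpow_one]
          linarith
        have h6 : P ^ (2 * ε) = P ^ ε * P ^ ε := by rw [← Real.rpow_add hP0']; congr 1; ring
        rw [h6]
        calc 2 * (C0 * (Q : ℝ) ^ ε) = 2 * C0 * (Q : ℝ) ^ ε := by ring
          _ ≤ P ^ ε * P ^ ε := mul_le_mul h3 h2 (by positivity) (by positivity))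
      S (fun q hq => (hS q hq).2) (by
        intro N V hV hV2 S' hS' hL
        have h2 := h Q N hQ c hc V hV (by
          rw [Real.rpow_add hQ0, Real.rpow_one]
          calc C0 * N * (Q * (Q : ℝ) ^ ε) = C0 * (Q : ℝ) ^ ε * N * Q := by ring
            _ ≤ V ^ 2 := hV2) S' (by
          intro q hq
          obtain ⟨h3, h4, h5, _⟩ := hS q (hS' hq)
          exact ⟨h3, h4.le, by omega, hL q hq⟩)
        exact h2)
    refine h1.trans ?_
    have h2 : (2 * (Q : ℝ)) ^ (2 * η) ≤ 2 * (Q : ℝ) ^ (2 * η) := by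
      rw [Real.mul_rpow (by norm_num) hQ0.le]
      apply mul_le_mul_of_nonneg_right _ (by positivity)
      calc (2 : ℝ) ^ (2 * η) ≤ 2 ^ (1 : ℝ) := Real.rpow_le_rpow_of_exponent_le (by norm_num) (by linarith)
        _ = 2 := Real.rpow_one _
    calc 4 * (C0 * (Q : ℝ) ^ ε) * (2 * (Q : ℝ)) ^ (2 * η) * ((Q : ℝ) ^ (-(2 * ε)) / (1 - (2 : ℝ) ^ (-(2 * ε))))
        ≤ 4 * (C0 * (Q : ℝ) ^ ε) * (2 * (Q : ℝ) ^ (2 * η)) * ((Q : ℝ) ^ (-(2 * ε)) / (1 - (2 : ℝ) ^ (-(2 * ε)))) := by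
          gcongr
      _ = 8 * C0 / (1 - (2 : ℝ) ^ (-(2 * ε))) * ((Q : ℝ) ^ ε * (Q : ℝ) ^ (2 * η) * (Q : ℝ) ^ (-(2 * ε))) := by
          field_simp
          ring
      _ = 8 * C0 / (1 - (2 : ℝ) ^ (-(2 * ε))) * (Q : ℝ) ^ (2 * η - ε) := by
          rw [← Real.rpow_add hQ0, ← Real.rpow_add hQ0]
          congr 2
          ring
      _ ≤ _ := by
          apply mul_le_mul_of_nonneg_right _ hQe.le
          have : 0 ≤ P0 ^ (1 + ε) := by positivity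
          linarith

/-- all moduli -/
theorem all_exp (k : ℕ) (hk : 2 ≤ k) (η ε : ℝ) (hη : 0 ≤ η) (hη1 : η ≤ 1 / 2) (hε : 0 < ε) : ∃ C : ℝ, 0 < C ∧
    ∀ Q : ℕ, 1 ≤ Q → ∀ c : ℕ → ℂ, (∀ n, ‖c n‖ ≤ 1) → ∀ S : Finset ℕ,
    (∀ q ∈ S, Q < q ∧ q ≤ 2 * Q ∧ BadQ c k η ε q) → (S.card : ℝ) ≤ C * (Q : ℝ) ^ (1 - ε / 26) := by
  classical
  obtain ⟨C0, hC0, h⟩ := allq k hk ε hε
  set δ : ℝ := ε / 26 with hδ
  have hδ0 : 0 < δ := by positivity
  set P0 : ℝ := (128 * C0) ^ (2 / ε) with hP0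
  have hP01 : 1 ≤ P0 := Real.one_le_rpow (by linarith) (by positivity)
  have hr1 : (2 : ℝ) ^ (-(2 * ε)) < 1 := Real.rpow_lt_one_of_one_lt_of_neg (by norm_num) (by linarith)
  have hr2 : 0 < 1 - (2 : ℝ) ^ (-(2 * ε)) := by linarith
  refine ⟨P0 ^ δ + (2 + 8 * 4096 * C0 / (1 - (2 : ℝ) ^ (-(2 * ε)))), by positivity, ?_⟩
  intro Q hQ c hc S hS
  have hQ' : (1 : ℝ) ≤ Q := by exact_mod_cast hQ
  have hQ0 : (0 : ℝ) < Q := by linarith
  have hQe : 0 < (Q : ℝ) ^ (1 - δ) := by positivity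
  rcases lt_or_ge (Q : ℝ) P0 with hlt | hge
  · have h1 := card_le_Q Q S (fun q hq => ⟨(hS q hq).1, (hS q hq).2.1⟩)
    have h2 : (Q : ℝ) = (Q : ℝ) ^ δ * (Q : ℝ) ^ (1 - δ) := by
      rw [← Real.rpow_add hQ0]; simp
    have h4 : (Q : ℝ) ^ δ ≤ P0 ^ δ := Real.rpow_le_rpow hQ0.le hlt.le hδ0.le
    calc (S.card : ℝ) ≤ Q := h1
      _ = (Q : ℝ) ^ δ * (Q : ℝ) ^ (1 - δ) := h2
      _ ≤ P0 ^ δ * (Q : ℝ) ^ (1 - δ) := mul_le_mul_of_nonneg_right h4 hQe.le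
      _ ≤ _ := by
          apply mul_le_mul_of_nonneg_right _ hQe.le
          have : 0 ≤ 2 + 8 * 4096 * C0 / (1 - (2 : ℝ) ^ (-(2 * ε))) := by positivity
          linarith
  · set D : ℕ := ⌈(Q : ℝ) ^ δ⌉₊ with hD
    have hQd1 : (1 : ℝ) ≤ (Q : ℝ) ^ δ := Real.one_le_rpow hQ' hδ0.le
    have hD1 : (Q : ℝ) ^ δ ≤ D := Nat.le_ceil _
    have hD2 : (D : ℝ) ≤ 2 * (Q : ℝ) ^ δ := by
      have := (Nat.ceil_lt_add_one (a := (Q : ℝ) ^ δ) (by positivity)).le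
      rw [← hD] at this
      linarith
    have hD3 : 1 ≤ D := Nat.ceil_pos.mpr (by positivity)
    have hD0 : (0 : ℝ) < D := by exact_mod_cast hD3
    set S1 : Finset ℕ := S.filter (fun q => ∃ d : ℕ, D < d ∧ d ^ 2 ∣ q) with hS1
    set S2 : Finset ℕ := S.filter (fun q => ¬ ∃ d : ℕ, D < d ∧ d ^ 2 ∣ q) with hS2
    have hcard : (S.card : ℝ) = S1.card + S2.card := by
      rw [hS1, hS2]
      exact_mod_cast (Finset.card_filter_add_card_filter_not (s := S) (fun q => ∃ d : ℕ, D < d ∧ d ^ 2 ∣ q)).symm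
    have h1 : (S1.card : ℝ) ≤ 2 * (Q : ℝ) ^ (1 - δ) := by
      refine (sqdiv Q D hD3 S1 (fun q hq => ?_)).trans ?_
      · rw [hS1, Finset.mem_filter] at hq
        exact ⟨(hS q hq.1).1, (hS q hq.1).2.1, hq.2⟩
      · rw [div_le_iff₀ hD0]
        have h2 : (Q : ℝ) = (Q : ℝ) ^ (1 - δ) * (Q : ℝ) ^ δ := by rw [← Real.rpow_add hQ0]; simp
        calc 2 * (Q : ℝ) = 2 * ((Q : ℝ) ^ (1 - δ) * (Q : ℝ) ^ δ) := by rw [← h2]
          _ ≤ 2 * ((Q : ℝ) ^ (1 - δ) * D) := by gcongr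
          _ = _ := by ring
    have hD6 : (D : ℝ) ^ 6 ≤ 64 * (Q : ℝ) ^ (6 * δ) := by
      have := pow_le_pow_left₀ hD0.le hD2 6
      refine this.trans (le_of_eq ?_)
      rw [mul_pow, ← Real.rpow_natCast ((Q : ℝ) ^ δ) 6, ← Real.rpow_mul hQ0.le]
      norm_num
      ring_nf
    have hD12 : (D : ℝ) ^ 12 ≤ 4096 * (Q : ℝ) ^ (12 * δ) := by
      have := pow_le_pow_left₀ hD0.le hD2 12
      refine this.trans (le_of_eq ?_)
      rw [mul_pow, ← Real.rpow_natCast ((Q : ℝ) ^ δ) 12, ← Real.rpow_mul hQ0.le]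
      norm_num
      ring_nf
    have h2 := scalesQ k η ε hη hε c (C0 * (D : ℝ) ^ 6 * (Q : ℝ) ^ ε) (C0 * (D : ℝ) ^ 12 * (Q : ℝ) ^ ε) P0 hP01 Q hQ hge
      (by positivity) (by positivity) (by
        intro P hP
        have hP0' : 0 < P := by linarith
        have hP1' : 1 ≤ P := by linarith
        have h2 : (Q : ℝ) ^ (ε + 6 * δ) ≤ P ^ (ε + 6 * δ) := Real.rpow_le_rpow hQ0.le hP (by positivity)
        have h3 : 128 * C0 ≤ P ^ (ε / 2) := by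
          have h4 : P0 ^ (ε / 2) ≤ P ^ (ε / 2) := Real.rpow_le_rpow (by linarith) (hge.trans hP) (by positivity)
          have h5 : P0 ^ (ε / 2) = 128 * C0 := by
            rw [hP0, ← Real.rpow_mul (by linarith)]
            have : 2 / ε * (ε / 2) = 1 := by field_simp
            rw [this, Real.rpow_one]
          linarith
        calc 2 * (C0 * (D : ℝ) ^ 6 * (Q : ℝ) ^ ε) ≤ 2 * (C0 * (64 * (Q : ℝ) ^ (6 * δ)) * (Q : ℝ) ^ ε) := by gcongr
          _ = 128 * C0 * ((Q : ℝ) ^ ε * (Q : ℝ) ^ (6 * δ)) := by ring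
          _ = 128 * C0 * (Q : ℝ) ^ (ε + 6 * δ) := by rw [Real.rpow_add hQ0]
          _ ≤ P ^ (ε / 2) * P ^ (ε + 6 * δ) := mul_le_mul h3 h2 (by positivity) (by positivity)
          _ = P ^ (ε / 2 + (ε + 6 * δ)) := by rw [← Real.rpow_add hP0']
          _ ≤ P ^ (2 * ε) := by
              apply Real.rpow_le_rpow_of_exponent_le hP1'
              rw [hδ]; linarith)
      S2 (fun q hq => hS q (Finset.mem_filter.mp hq).1) (by
        intro N V hV hV2 S' hS' hL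
        have h2 := h Q N D hQ hD3 c hc V hV (by
          rw [Real.rpow_add hQ0, Real.rpow_one]
          calc C0 * (D : ℝ) ^ 6 * N * (Q * (Q : ℝ) ^ ε) = C0 * (D : ℝ) ^ 6 * (Q : ℝ) ^ ε * N * Q := by ring
            _ ≤ V ^ 2 := hV2) S' (by
          intro q hq
          have h3 := hS' hq
          rw [hS2, Finset.mem_filter] at h3
          obtain ⟨h4, h5, _⟩ := hS q h3.1
          refine ⟨fun d hd => ?_, h4, h5, hL q hq⟩
          by_contra hcon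
          exact h3.2 ⟨d, by omega, hd⟩)
        refine h2.trans (le_of_eq ?_)
        ring)
    have h3 : (S2.card : ℝ) ≤ 8 * 4096 * C0 / (1 - (2 : ℝ) ^ (-(2 * ε))) * (Q : ℝ) ^ (1 - δ) := by
      refine h2.trans ?_
      have h2' : (2 * (Q : ℝ)) ^ (2 * η) ≤ 2 * (Q : ℝ) ^ (2 * η) := by
        rw [Real.mul_rpow (by norm_num) hQ0.le]
        apply mul_le_mul_of_nonneg_right _ (by positivity)
        calc (2 : ℝ) ^ (2 * η) ≤ 2 ^ (1 : ℝ) := Real.rpow_le_rpow_of_exponent_le (by norm_num) (by linarith)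
          _ = 2 := Real.rpow_one _
      calc 4 * (C0 * (D : ℝ) ^ 12 * (Q : ℝ) ^ ε) * (2 * (Q : ℝ)) ^ (2 * η) *
            ((Q : ℝ) ^ (-(2 * ε)) / (1 - (2 : ℝ) ^ (-(2 * ε))))
          ≤ 4 * (C0 * (4096 * (Q : ℝ) ^ (12 * δ)) * (Q : ℝ) ^ ε) * (2 * (Q : ℝ) ^ (2 * η)) *
            ((Q : ℝ) ^ (-(2 * ε)) / (1 - (2 : ℝ) ^ (-(2 * ε)))) := by
            gcongr
        _ = 8 * 4096 * C0 / (1 - (2 : ℝ) ^ (-(2 * ε))) *
            ((Q : ℝ) ^ (12 * δ) * (Q : ℝ) ^ ε * (Q : ℝ) ^ (2 * η) * (Q : ℝ) ^ (-(2 * ε))) := by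
            field_simp
            ring
        _ ≤ 8 * 4096 * C0 / (1 - (2 : ℝ) ^ (-(2 * ε))) * (Q : ℝ) ^ (1 - δ) := by
            apply mul_le_mul_of_nonneg_left _ (by positivity)
            rw [← Real.rpow_add hQ0, ← Real.rpow_add hQ0, ← Real.rpow_add hQ0]
            apply Real.rpow_le_rpow_of_exponent_le hQ'
            rw [hδ]; linarith
    rw [hcard]
    calc (S1.card : ℝ) + S2.card ≤ 2 * (Q : ℝ) ^ (1 - δ) +
          8 * 4096 * C0 / (1 - (2 : ℝ) ^ (-(2 * ε))) * (Q : ℝ) ^ (1 - δ) := add_le_add h1 h3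
      _ = (2 + 8 * 4096 * C0 / (1 - (2 : ℝ) ^ (-(2 * ε)))) * (Q : ℝ) ^ (1 - δ) := by ring
      _ ≤ _ := by
          apply mul_le_mul_of_nonneg_right _ hQe.le
          have : 0 ≤ P0 ^ δ := by positivity
          linarith

end Pool.Agent.Helper68K9.MWQ
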